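import Pool.Agent.Lib_MP_f1a94e_m.G11

/-!
# The triangle sums along a progression of second vectors
-/

set_option autoImplicit false

namespace Pool.Agent.OrbL

open Finset Pool.Agent.GaussMR Pool.Agent.OmAll Pool.Agent.OmEq

theorem rho_left {J N : ℕ} (hN : 1 ≤ N) {r : ℝ} (h : r ≤ J) : rho J N r = 0 := by
  by_contra hne
  have hN0 : (0 : ℝ) < N := by exact_mod_cast hN
  unfold rho at hne
  apply hne
  apply max_eq_left
  have h1 : 2 * (r - J) / N ≤ 0 := div_nonpos_of_nonpos_of_nonneg (by linarith) hN0.le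
  have h2 : 1 ≤ |2 * (r - J) / N - 1| := by
    rw [abs_of_nonpos (by linarith)]
    linarith
  linarith

theorem rho_right {J N : ℕ} (hN : 1 ≤ N) {r : ℝ} (h : (J : ℝ) + N ≤ r) : rho J N r = 0 := by
  by_contra hne
  have hN0 : (0 : ℝ) < N := by exact_mod_cast hN
  unfold rho at hne
  apply hne
  apply max_eq_left
  have h1 : 2 ≤ 2 * (r - J) / N := by
    rw [le_div_iff₀ hN0]
    linarith
  have h2 : 1 ≤ |2 * (r - J) / N - 1| := by
    rw [abs_of_nonneg (by linarith)]
    linarith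
  linarith

/-- the terms not vanishing -/
theorem rho_ne {H j J : ℕ} (hH : 0 < H) {θ : ℝ} (h0 : 0 ≤ θ) (h1 : θ < 1) (h : rho J (2 * H) (θ + j) ≠ 0) :
    j + 1 ≤ J + 2 * H ∧ J < j + 1 := by
  constructor
  · by_contra hc
    push Not at hc
    apply h
    apply rho_right (by omega)
    have h2 : J + 2 * H ≤ j := by omega
    have h3 : ((J + 2 * H : ℕ) : ℝ) ≤ j := by exact_mod_cast h2
    push_cast at h3 ⊢
    linarith
  · by_contra hc
    push Not at hc
    apply h
    apply rho_left (by omega)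
    have h3 : ((j + 1 : ℕ) : ℝ) ≤ J := by exact_mod_cast hc
    push_cast at h3
    linarith

theorem rsum_nonneg (H a b j : ℕ) (θ : ℝ) : 0 ≤ ∑ J ∈ Ico a b, rho J (2 * H) (θ + j) :=
  sum_nonneg fun _ _ => csN_rho_nonneg _ _ _

/-- upper bound of the sum of the triangles -/
theorem rsum_le (H a b j : ℕ) (hH : 0 < H) (θ : ℝ) (h0 : 0 ≤ θ) (h1 : θ < 1) :
    ∑ J ∈ Ico a b, rho J (2 * H) (θ + j) ≤ 2 * H := by
  have h2 : ∑ J ∈ Ico a b, rho J (2 * H) (θ + j) =
      ∑ J ∈ (Ico a b).filter (fun J => j + 1 ≤ J + 2 * H ∧ J < j + 1), rho J (2 * H) (θ + j) := by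
    symm
    apply sum_filter_of_ne
    intro J _ hne
    exact rho_ne hH h0 h1 hne
  rw [h2]
  have h3 : ∑ J ∈ (Ico a b).filter (fun J => j + 1 ≤ J + 2 * H ∧ J < j + 1), rho J (2 * H) (θ + j) ≤
      ∑ _J ∈ (Ico a b).filter (fun J => j + 1 ≤ J + 2 * H ∧ J < j + 1), (1 : ℝ) :=
    sum_le_sum fun _ _ => csN_rho_le _ _ _
  refine h3.trans ?_
  rw [sum_const, nsmul_eq_mul, mul_one]
  have h4 : ((Ico a b).filter (fun J => j + 1 ≤ J + 2 * H ∧ J < j + 1)) ⊆ Ico (j + 1 - 2 * H) (j + 1) := by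
    intro J hJ
    rw [mem_filter] at hJ
    rw [mem_Ico]
    omega
  have h5 := card_le_card h4
  rw [Nat.card_Ico] at h5
  have h6 : ((Ico a b).filter (fun J => j + 1 ≤ J + 2 * H ∧ J < j + 1)).card ≤ 2 * H := by omega
  exact_mod_cast h6

/-- the triangles are a partition of the constant `H` -/
theorem rsum_eq (H a b j : ℕ) (hH : 0 < H) (θ : ℝ) (h0 : 0 ≤ θ) (h1 : θ < 1) (ha : a + 2 * H ≤ j) (hb : j < b) :
    ∑ J ∈ Ico a b, rho J (2 * H) (θ + j) = H := by
  have hH0 : (0 : ℝ) < H := by exact_mod_cast hH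
  obtain ⟨m, hm⟩ : ∃ m : ℕ, j + 1 = 2 * H + m := ⟨j + 1 - 2 * H, by omega⟩
  have hsub : Ico m (m + (H + H)) ⊆ Ico a b := by
    intro J hJ
    rw [mem_Ico] at hJ ⊢
    omega
  have h2 : ∑ J ∈ Ico a b, rho J (2 * H) (θ + j) = ∑ J ∈ Ico m (m + (H + H)), rho J (2 * H) (θ + j) := by
    symm
    apply sum_subset hsub
    intro J _ hJ
    by_contra hne
    have h3 := rho_ne hH h0 h1 hne
    apply hJ
    rw [mem_Ico]
    omega
  have hj : (j : ℝ) = 2 * H + m - 1 := by
    have h3 : ((j + 1 : ℕ) : ℝ) = ((2 * H + m : ℕ) : ℝ) := by rw [hm]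
    push_cast at h3
    linarith
  rw [h2, sum_Ico_eq_sum_range, add_tsub_cancel_left, sum_range_add, ← sum_add_distrib]
  have h3 : ∀ k ∈ range H, rho (m + k) (2 * H) (θ + j) + rho (m + (H + k)) (2 * H) (θ + j) = 1 := by
    intro k hk
    rw [mem_range] at hk
    have hk0 : (0 : ℝ) ≤ k := Nat.cast_nonneg _
    have hk1 : (k : ℝ) + 1 ≤ H := by exact_mod_cast hk
    have e1 : rho (m + k) (2 * H) (θ + j) = (k + 1 - θ) / H := by
      unfold rho
      have e2 : 2 * (θ + j - ((m + k : ℕ) : ℝ)) / ((2 * H : ℕ) : ℝ) - 1 = (θ + H - 1 - k) / H := by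
        rw [hj]
        push_cast
        field_simp
        ring
      rw [e2, abs_of_nonneg (div_nonneg (by linarith) hH0.le)]
      have e3 : 1 - (θ + H - 1 - k) / H = (k + 1 - θ) / H := by
        field_simp
        ring
      rw [e3]
      exact max_eq_right (div_nonneg (by linarith) hH0.le)
    have e4 : rho (m + (H + k)) (2 * H) (θ + j) = (H - 1 - k + θ) / H := by
      unfold rho
      have e2 : 2 * (θ + j - ((m + (H + k) : ℕ) : ℝ)) / ((2 * H : ℕ) : ℝ) - 1 = (θ - 1 - k) / H := by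
        rw [hj]
        push_cast
        field_simp
        ring
      rw [e2, abs_of_nonpos (div_nonpos_of_nonpos_of_nonneg (by linarith) hH0.le)]
      have e3 : 1 - -((θ - 1 - k) / H) = (H - 1 - k + θ) / H := by
        field_simp
        ring
      rw [e3]
      exact max_eq_right (div_nonneg (by linarith) hH0.le)
    rw [e1, e4, ← add_div]
    have e5 : (k + 1 - θ + (H - 1 - k + θ) : ℝ) = H := by ring
    rw [e5, div_self hH0.ne']
  rw [sum_congr rfl h3, sum_const, card_range, nsmul_eq_mul, mul_one]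

/-- the `j`-th second vector -/
def bj (A B : G) (j : ℕ) : G := B + (((j : ℤ)) : G) * A

theorem det_bj {A B : G} (h : det A B = 1) (j : ℕ) : det A (bj A B j) = 1 := by
  have h1 : det A (bj A B j) = det A B := by
    unfold bj det
    rw [Zsqrtd.re_add, Zsqrtd.im_add, TailP.smul_re, TailP.smul_im]
    ring
  rw [h1, h]

theorem dot_bj (A B : G) (j : ℕ) : dot A (bj A B j) = dot A B + j * nm A := TailP.dot_add_mul A B j

theorem bj_inj {A B : G} (h : det A B = 1) {i j : ℕ} (hij : bj A B i = bj A B j) : i = j := by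
  have h1 := dot_bj A B i
  have h2 := dot_bj A B j
  rw [hij, h2] at h1
  have h3 : (0 : ℤ) < nm A := by exact_mod_cast nm_pos (csN_ne_zero h)
  have h4 : ((j : ℤ) - i) * (nm A : ℤ) = 0 := by linarith
  rcases mul_eq_zero.1 h4 with h5 | h5
  · omega
  · omega

/-- the triangle sum along the progression -/
theorem csT_fan (f : ℕ → ℂ) (J N M : ℕ) (hN : 1 ≤ N) (hM : J + N < M) (A B : G) (h : det A B = 1)
    (h0 : 0 ≤ dot A B) (h1 : dot A B < nm A) :
    csT f J N A = ∑ j ∈ range M, f (nm (bj A B j)) *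
      ((rho J N (((dot A B : ℤ) : ℝ) / nm A + j) : ℝ) : ℂ) := by
  classical
  have hn : (0 : ℝ) < nm A := by exact_mod_cast nm_pos (csN_ne_zero h)
  have hnz : (0 : ℤ) < nm A := by exact_mod_cast nm_pos (csN_ne_zero h)
  have h2 : ∀ j : ℕ, (((dot A B : ℤ) : ℝ) / nm A + j) = ((dot A (bj A B j) : ℤ) : ℝ) / nm A := by
    intro j
    rw [dot_bj]
    push_cast
    field_simp
  have h3 : ∑ j ∈ range M, f (nm (bj A B j)) * ((rho J N (((dot A B : ℤ) : ℝ) / nm A + j) : ℝ) : ℂ) =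
      ∑ B' ∈ (range M).image (bj A B), f (nm B') * ((rho J N (((dot A B' : ℤ) : ℝ) / nm A) : ℝ) : ℂ) := by
    rw [sum_image (fun i _ j _ hij => bj_inj h hij)]
    apply sum_congr rfl
    intro j _
    rw [h2]
  rw [h3]
  unfold csT
  apply sum_subset
  · intro B' hB'
    rw [csN_mem] at hB'
    obtain ⟨hd, hl, hr⟩ := hB'
    obtain ⟨k, hk⟩ := TailP.diff_mul h hd
    have h4 : dot A B' = dot A B + k * nm A := by rw [hk, TailP.dot_add_mul]
    have hl' : (J : ℤ) * nm A ≤ dot A B' := by exact_mod_cast hl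
    have hr' : dot A B' ≤ ((J : ℤ) + N) * nm A := by exact_mod_cast hr
    have hk0 : 0 ≤ k := by
      by_contra hc
      push Not at hc
      have h5 : k ≤ -1 := by omega
      have h6 : k * (nm A : ℤ) ≤ -1 * nm A := mul_le_mul_of_nonneg_right h5 hnz.le
      have h7 : (0 : ℤ) ≤ (J : ℤ) * nm A := by positivity
      linarith
    have hk1 : k ≤ J + N := by
      by_contra hc
      push Not at hc
      have h5 : ((J : ℤ) + N + 1) * nm A ≤ k * nm A := mul_le_mul_of_nonneg_right (by omega) hnz.le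
      have h6 : ((J : ℤ) + N + 1) * nm A = ((J : ℤ) + N) * nm A + nm A := by ring
      linarith
    rw [mem_image]
    refine ⟨k.toNat, ?_, ?_⟩
    · rw [mem_range]
      omega
    · unfold bj
      rw [Int.toNat_of_nonneg hk0, hk]
  · intro B' hB' hne
    rw [mem_image] at hB'
    obtain ⟨j, _, rfl⟩ := hB'
    have h4 : rho J N (((dot A (bj A B j) : ℤ) : ℝ) / nm A) = 0 := by
      by_contra hc
      have h5 := csN_rho_ne hN hc
      rw [le_div_iff₀ hn, div_le_iff₀ hn] at h5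
      exact hne (csN_mem.2 ⟨det_bj h j, h5.1, h5.2⟩)
    rw [h4]
    simp

/-- sums over an initial segment by triangle sums -/
theorem fan_le (f : ℕ → ℂ) (hf : ∀ n, ‖f n‖ ≤ 1) (H J0 L : ℕ) (hH : 0 < H) (A B : G) (h : det A B = 1)
    (h0 : 0 ≤ dot A B) (h1 : dot A B < nm A) :
    ‖∑ j ∈ range L, f (nm (bj A B j))‖ ≤
      (∑ J ∈ Ico J0 L, ‖csT f J (2 * H) A‖) / H + (J0 + 6 * H + 2) := by
  have hH0 : (0 : ℝ) < H := by exact_mod_cast hH
  have hn : (0 : ℝ) < nm A := by exact_mod_cast nm_pos (csN_ne_zero h)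
  set θ : ℝ := ((dot A B : ℤ) : ℝ) / nm A with hθ
  have hθ0 : 0 ≤ θ := div_nonneg (by exact_mod_cast h0) hn.le
  have hθ1 : θ < 1 := by
    rw [hθ, div_lt_one hn]
    exact_mod_cast h1
  set M : ℕ := L + 2 * H + 1 with hM
  set S : ℕ → ℝ := fun j => ∑ J ∈ Ico J0 L, rho J (2 * H) (θ + j) with hS
  have hS0 : ∀ j, 0 ≤ S j := fun j => rsum_nonneg H J0 L j θ
  have hS1 : ∀ j, S j ≤ 2 * H := fun j => rsum_le H J0 L j hH θ hθ0 hθ1
  set F : ℕ → ℂ := fun j => f (nm (bj A B j)) with hF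
  have hF1 : ∀ j, ‖F j‖ ≤ 1 := fun j => hf _
  have e1 : ∑ J ∈ Ico J0 L, csT f J (2 * H) A = ∑ j ∈ range M, F j * ((S j : ℝ) : ℂ) := by
    have e2 : ∀ J ∈ Ico J0 L, csT f J (2 * H) A =
        ∑ j ∈ range M, F j * ((rho J (2 * H) (θ + j) : ℝ) : ℂ) := by
      intro J hJ
      rw [mem_Ico] at hJ
      exact csT_fan f J (2 * H) M (by omega) (by omega) A B h h0 h1
    rw [sum_congr rfl e2, sum_comm]
    apply sum_congr rfl
    intro j _
    rw [← mul_sum, hS]
    push_cast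
    rfl
  have e3 : ∑ j ∈ range M, F j * ((S j : ℝ) : ℂ) = ∑ j ∈ range L, F j * ((S j : ℝ) : ℂ) +
      ∑ j ∈ range (2 * H + 1), F (L + j) * ((S (L + j) : ℝ) : ℂ) := by
    rw [hM, add_assoc, sum_range_add]
  have e4 : (H : ℂ) * ∑ j ∈ range L, F j = ∑ J ∈ Ico J0 L, csT f J (2 * H) A +
      ∑ j ∈ range L, F j * (((H - S j : ℝ)) : ℂ) -
      ∑ j ∈ range (2 * H + 1), F (L + j) * ((S (L + j) : ℝ) : ℂ) := by
    rw [e1, e3]
    have e5 : (H : ℂ) * ∑ j ∈ range L, F j = ∑ j ∈ range L, F j * ((S j : ℝ) : ℂ) +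
        ∑ j ∈ range L, F j * (((H - S j : ℝ)) : ℂ) := by
      rw [← sum_add_distrib, mul_sum]
      apply sum_congr rfl
      intro j _
      push_cast
      ring
    rw [e5]
    ring
  have b1 : ‖∑ j ∈ range L, F j * (((H - S j : ℝ)) : ℂ)‖ ≤ (J0 + 2 * H) * H := by
    have b2 : ‖∑ j ∈ range L, F j * (((H - S j : ℝ)) : ℂ)‖ ≤
        ∑ j ∈ range L, if j < J0 + 2 * H then (H : ℝ) else 0 := by
      apply norm_sum_le_of_le
      intro j hj
      rw [mem_range] at hj
      rw [norm_mul, Complex.norm_real, Real.norm_eq_abs]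
      split_ifs with hc
      · have b3 : |(H : ℝ) - S j| ≤ H := by
          rw [abs_le]
          constructor
          · have := hS1 j
            linarith
          · have := hS0 j
            linarith
        calc ‖F j‖ * |(H : ℝ) - S j| ≤ 1 * H := by
              apply mul_le_mul (hF1 j) b3 (abs_nonneg _) zero_le_one
          _ = H := one_mul _
      · have b3 : S j = H := rsum_eq H J0 L j hH θ hθ0 hθ1 (by omega) hj
        rw [b3, sub_self, abs_zero, mul_zero]
    refine b2.trans ?_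
    rw [← sum_filter, sum_const, nsmul_eq_mul]
    apply mul_le_mul_of_nonneg_right _ hH0.le
    have b4 : (range L).filter (fun j => j < J0 + 2 * H) ⊆ range (J0 + 2 * H) := by
      intro j hj
      rw [mem_filter] at hj
      exact mem_range.2 hj.2
    have b5 := card_le_card b4
    rw [card_range] at b5
    exact_mod_cast b5
  have b6 : ‖∑ j ∈ range (2 * H + 1), F (L + j) * ((S (L + j) : ℝ) : ℂ)‖ ≤ (2 * H + 1) * (2 * H) := by
    have b7 : ‖∑ j ∈ range (2 * H + 1), F (L + j) * ((S (L + j) : ℝ) : ℂ)‖ ≤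
        ∑ _j ∈ range (2 * H + 1), (2 * H : ℝ) := by
      apply norm_sum_le_of_le
      intro j _
      rw [norm_mul, Complex.norm_real, Real.norm_eq_abs, abs_of_nonneg (hS0 _)]
      calc ‖F (L + j)‖ * S (L + j) ≤ 1 * (2 * H) := by
            apply mul_le_mul (hF1 _) (hS1 _) (hS0 _) zero_le_one
        _ = 2 * H := one_mul _
    rw [sum_const, card_range, nsmul_eq_mul] at b7
    push_cast at b7
    exact b7
  have b8 : (H : ℝ) * ‖∑ j ∈ range L, F j‖ ≤ ∑ J ∈ Ico J0 L, ‖csT f J (2 * H) A‖ +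
      (J0 + 2 * H) * H + (2 * H + 1) * (2 * H) := by
    have b9 : (H : ℝ) * ‖∑ j ∈ range L, F j‖ = ‖(H : ℂ) * ∑ j ∈ range L, F j‖ := by
      rw [norm_mul, Complex.norm_natCast]
    rw [b9, e4]
    refine (norm_sub_le _ _).trans ?_
    refine add_le_add ((norm_add_le _ _).trans ?_) b6
    exact add_le_add (norm_sum_le _ _) b1
  have b10 : ‖∑ j ∈ range L, F j‖ ≤ (∑ J ∈ Ico J0 L, ‖csT f J (2 * H) A‖ +
      (J0 + 2 * H) * H + (2 * H + 1) * (2 * H)) / H := by
    rw [le_div_iff₀ hH0]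
    linarith
  refine b10.trans (le_of_eq ?_)
  field_simp
  ring

end Pool.Agent.OrbL
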