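import Pool.Agent.Lib_MP_f1a94e_m.G20
import Pool.Agent.Lib_MP_f1a94e_ob.A1
import Pool.Agent.Lib_MP_f1a94e_ob.A2

/-!
# Sums over bounded initial segments of root progressions
-/

set_option autoImplicit false

namespace Pool.Agent.OrbL

open Finset Pool.Agent.GaussMR Pool.Agent.OmAll Pool.Agent.OmEq Pool.Agent.LPr Filter

/-- the pairs `(d, ν)`, `1 ≤ d ≤ x`, `0 ≤ ν < d`, `d ∣ ν ^ 2 + 1` -/
noncomputable def RP (x : ℝ) : Finset (ℕ × ℕ) :=
  ((Icc 1 ⌊x⌋₊) ×ˢ (range ⌊x⌋₊)).filter (fun p => p.2 < p.1 ∧ p.1 ∣ p.2 ^ 2 + 1)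

theorem mem_RP {x : ℝ} (hx : 0 ≤ x) {p : ℕ × ℕ} :
    p ∈ RP x ↔ 0 < p.1 ∧ (p.1 : ℝ) ≤ x ∧ p.2 < p.1 ∧ p.1 ∣ p.2 ^ 2 + 1 := by
  unfold RP
  rw [mem_filter, mem_product, mem_Icc, mem_range, Nat.le_floor_iff hx]
  constructor
  · rintro ⟨⟨⟨h1, h2⟩, _⟩, h4, h5⟩
    exact ⟨h1, h2, h4, h5⟩
  · rintro ⟨h1, h2, h4, h5⟩
    have h6 := (Nat.le_floor_iff hx).2 h2
    exact ⟨⟨⟨h1, h2⟩, by omega⟩, h4, h5⟩

/-- the cofactor of the `j`-th member -/
def er (p : ℕ × ℕ) (j : ℕ) : ℕ := ((p.2 + j * p.1) ^ 2 + 1) / p.1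

theorem er_mul {p : ℕ × ℕ} (h : p.1 ∣ p.2 ^ 2 + 1) (j : ℕ) : p.1 * er p j = (p.2 + j * p.1) ^ 2 + 1 := by
  unfold er
  apply Nat.mul_div_cancel'
  have h1 : (p.2 + j * p.1) ^ 2 + 1 = (p.2 ^ 2 + 1) + p.1 * (2 * p.2 * j + j ^ 2 * p.1) := by ring
  rw [h1]
  exact dvd_add h (dvd_mul_right _ _)

theorem ex_AB (p : ℕ × ℕ) (h : p.1 ∣ p.2 ^ 2 + 1) :
    ∃ e : G × G, det e.1 e.2 = 1 ∧ dot e.1 e.2 = p.2 ∧ nm e.1 = p.1 := by
  obtain ⟨e, he⟩ := h
  obtain ⟨V, V', h1, h2, h3, _⟩ := exists_edge p.2 p.1 e he.symm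
  exact ⟨(V, V'), h1, h2, h3⟩

open Classical in
/-- a choice of the pair of Gaussian integers of a root -/
noncomputable def AB (p : ℕ × ℕ) : G × G := if h : p.1 ∣ p.2 ^ 2 + 1 then (ex_AB p h).choose else (0, 0)

theorem AB_spec {p : ℕ × ℕ} (h : p.1 ∣ p.2 ^ 2 + 1) :
    det (AB p).1 (AB p).2 = 1 ∧ dot (AB p).1 (AB p).2 = p.2 ∧ nm (AB p).1 = p.1 := by
  unfold AB
  rw [dif_pos h]
  exact (ex_AB p h).choose_spec

theorem nm_bj {p : ℕ × ℕ} (h : p.1 ∣ p.2 ^ 2 + 1) (hp : 0 < p.1) (j : ℕ) :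
    nm (bj (AB p).1 (AB p).2 j) = er p j := by
  obtain ⟨h1, h2, h3⟩ := AB_spec h
  have h4 := dot_sq_add_det_sq (AB p).1 (bj (AB p).1 (AB p).2 j)
  rw [det_bj h1, dot_bj, h2, h3] at h4
  have h5 := er_mul h j
  have h6 : ((p.1 * nm (bj (AB p).1 (AB p).2 j) : ℕ) : ℤ) = ((p.1 * er p j : ℕ) : ℤ) := by
    rw [h5]
    push_cast
    linarith
  have h7 : p.1 * nm (bj (AB p).1 (AB p).2 j) = p.1 * er p j := by exact_mod_cast h6
  exact Nat.eq_of_mul_eq_mul_left hp h7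

theorem AB_inj {x : ℝ} (hx : 0 ≤ x) : Set.InjOn (fun p : ℕ × ℕ => (AB p).1) (RP x : Set (ℕ × ℕ)) := by
  intro p hp p' hp' hpp
  simp only at hpp
  rw [mem_coe, mem_RP hx] at hp hp'
  obtain ⟨h1, _, h2, h3⟩ := hp
  obtain ⟨h1', _, h2', h3'⟩ := hp'
  obtain ⟨a1, a2, a3⟩ := AB_spec h3
  obtain ⟨b1, b2, b3⟩ := AB_spec h3'
  have hd : p.1 = p'.1 := by rw [← a3, ← b3, hpp]
  rw [← hpp] at b1 b2
  obtain ⟨k, hk⟩ := TailP.diff_mul a1 b1
  rw [hk, TailP.dot_add_mul, a2, a3] at b2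
  have hnu : p.2 = p'.2 := by
    have hk0 : k = 0 := by
      by_contra hc
      rcases lt_or_gt_of_ne hc with h | h
      · have h5 : k * (p.1 : ℤ) ≤ -1 * p.1 := mul_le_mul_of_nonneg_right (by omega) (by positivity)
        omega
      · have h5 : 1 * (p.1 : ℤ) ≤ k * p.1 := mul_le_mul_of_nonneg_right (by omega) (by positivity)
        omega
    rw [hk0] at b2
    omega
  exact Prod.ext hd hnu

/-- comparison of sums over roots and over Gaussian integers -/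
theorem sum_RP_le (x : ℝ) (hx : 0 ≤ x) (s : Finset (ℕ × ℕ)) (hs : s ⊆ RP x) (t : Finset G)
    (ht : ∀ p ∈ s, (AB p).1 ∈ t) (F : G → ℝ) (hF : ∀ z, 0 ≤ F z) :
    ∑ p ∈ s, F (AB p).1 ≤ ∑ z ∈ t, F z := by
  classical
  have h1 : ∑ p ∈ s, F (AB p).1 = ∑ z ∈ s.image (fun p => (AB p).1), F z := by
    rw [sum_image]
    intro p hp p' hp' h
    exact AB_inj hx (hs hp) (hs hp') h
  rw [h1]
  apply sum_le_sum_of_subset_of_nonneg
  · intro z hz
    rw [mem_image] at hz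
    obtain ⟨p, hp, rfl⟩ := hz
    exact ht p hp
  · intro z _ _
    exact hF z

theorem AB_mem {x y : ℝ} (hx : 0 ≤ x) {p : ℕ × ℕ} (hp : p ∈ RP x) (hy : (p.1 : ℝ) ≤ y) : (AB p).1 ∈ csA y := by
  rw [mem_RP hx] at hp
  obtain ⟨a1, a2, a3⟩ := AB_spec hp.2.2.2
  rw [csN_memA]
  exact ⟨csN_ne_zero a1, by rw [a3]; exact hy⟩

/-- the number of roots -/
theorem card_RP_le {x : ℝ} (hx : 0 ≤ x) : ((RP x).card : ℝ) ≤ 9 * x := by
  have h1 := sum_RP_le x hx (RP x) (Subset.refl _) (csA x) (fun p hp => AB_mem hx hp ((mem_RP hx).1 hp).2.1)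
    (fun _ => 1) (fun _ => zero_le_one)
  rw [sum_const, sum_const, nsmul_eq_mul, nsmul_eq_mul, mul_one, mul_one] at h1
  exact h1.trans (csN_cardA hx)

/-- the number of roots with small modulus -/
theorem card_small_le {x y : ℝ} (hx : 0 ≤ x) (hy : 0 ≤ y) :
    (((RP x).filter (fun p => (p.1 : ℝ) < y)).card : ℝ) ≤ 9 * y := by
  have h1 := sum_RP_le x hx ((RP x).filter (fun p => (p.1 : ℝ) < y)) (filter_subset _ _) (csA y)
    (fun p hp => AB_mem hx (mem_filter.1 hp).1 (mem_filter.1 hp).2.le)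
    (fun _ => 1) (fun _ => zero_le_one)
  rw [sum_const, sum_const, nsmul_eq_mul, nsmul_eq_mul, mul_one, mul_one] at h1
  exact h1.trans (csN_cardA hy)

/-- sums over bounded initial segments of root progressions are small on average -/
def FanSmall (g : ℝ → ℕ → ℂ) : Prop :=
  ∀ ε : ℝ, 0 < ε → ∃ L0 : ℕ, ∀ L : ℕ, L0 ≤ L → ∀ᶠ X : ℝ in atTop,
    ∑ p ∈ RP X, ‖∑ j ∈ range L, g X (er p j)‖ ≤ ε * L * X

/-- the cut-off -/
noncomputable def hcut (δ : ℝ) (y : ℝ) : ℝ := max 0 (min 1 (min ((y - δ / 2) * (2 / δ)) (2 - y)))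

theorem hcut_HF {δ : ℝ} (hδ : 0 < δ) : HF (hcut δ) (δ / 2) 2 := by
  refine ⟨?_, fun y => le_max_left _ _, fun y => max_le zero_le_one (min_le_left _ _), by positivity,
    by norm_num, ?_, ?_⟩
  · unfold hcut
    fun_prop
  · intro y hy
    unfold hcut
    apply max_eq_left
    refine (min_le_right _ _).trans ((min_le_left _ _).trans ?_)
    exact mul_nonpos_of_nonpos_of_nonneg (by linarith) (by positivity)
  · intro y hy
    unfold hcut
    apply max_eq_left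
    refine (min_le_right _ _).trans ((min_le_right _ _).trans ?_)
    linarith

theorem hcut_one {δ : ℝ} (hδ : 0 < δ) {y : ℝ} (h1 : δ ≤ y) (h2 : y ≤ 1) : hcut δ y = 1 := by
  unfold hcut
  have h3 : 1 ≤ (y - δ / 2) * (2 / δ) := by
    have h4 : (δ / 2) * (2 / δ) ≤ (y - δ / 2) * (2 / δ) :=
      mul_le_mul_of_nonneg_right (by linarith) (by positivity)
    have h5 : (δ / 2) * (2 / δ) = 1 := by field_simp
    linarith
  rw [min_eq_left (le_min h3 (by linarith))]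
  exact max_eq_right zero_le_one

/-- the sum of the triangle sums over the Gaussian integers of norm in `[δ X, X]` -/
theorem l1_le (f : ℕ → ℂ) (hf : ∀ n, ‖f n‖ ≤ 1) (δ : ℝ) (hδ : 0 < δ) (J N : ℕ) (hJ : 1 ≤ J) (hN : 1 ≤ N) (X : ℝ)
    (hX : 1 ≤ X) (T : ℝ)
    (hT : ‖∑ n ∈ Icc 1 N, Gm f (hcut δ) J N n (((J + N) ^ 2 * 2 + 1) * X) X‖ ≤ T) :
    (∑ A ∈ csA (2 * X), hcut δ (nm A / X) * ‖csT f J N A‖) ^ 2 ≤ 18 * X * (18 * X * (N + 1) + 2 * T) := by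
  have hh := hcut_HF hδ
  have h1 := msq f hf (hcut δ) hh.nn hh.le 2 hh.hi J N hJ hN X hX (by norm_num) (((J + N) ^ 2 * 2 + 1) * X)
    (by nlinarith)
  have h2 : (∑ A ∈ csA (2 * X), hcut δ (nm A / X) * ‖csT f J N A‖) ^ 2 ≤
      (csA (2 * X)).card * ∑ A ∈ csA (2 * X), (hcut δ (nm A / X) * ‖csT f J N A‖) ^ 2 :=
    sq_sum_le_card_mul_sum_sq
  have h3 : ∑ A ∈ csA (2 * X), (hcut δ (nm A / X) * ‖csT f J N A‖) ^ 2 =
      ∑ A ∈ csA (2 * X), hcut δ (nm A / X) ^ 2 * ‖csT f J N A‖ ^ 2 :=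
    sum_congr rfl fun A _ => by ring
  rw [h3] at h2
  refine h2.trans ?_
  have h4 : ((csA (2 * X)).card : ℝ) ≤ 18 * X := by
    have := csN_cardA (Y := 2 * X) (by linarith)
    linarith
  have h5 : (0 : ℝ) ≤ ∑ A ∈ csA (2 * X), hcut δ (nm A / X) ^ 2 * ‖csT f J N A‖ ^ 2 :=
    sum_nonneg fun _ _ => by positivity
  calc _ ≤ 18 * X * ∑ A ∈ csA (2 * X), hcut δ (nm A / X) ^ 2 * ‖csT f J N A‖ ^ 2 :=
        mul_le_mul_of_nonneg_right h4 h5
    _ ≤ 18 * X * (18 * X * (N + 1) + 2 * T) := by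
        apply mul_le_mul_of_nonneg_left _ (by linarith)
        refine h1.trans ?_
        have : 9 * 2 * X * (↑N + 1) = 18 * X * (N + 1) := by ring
        linarith

/-- PROOF. Choose the width `2 H` from `GmSmallX`, average the triangle sums over the starting points. -/
theorem fan_of_gm (g : ℝ → ℕ → ℂ) (hg : ∀ X n, ‖g X n‖ ≤ 1) (hG : GmSmallX g) : FanSmall g := by
  intro ε hε
  set δ : ℝ := ε / 36 with hδd
  have hδ : 0 < δ := by positivity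
  set η : ℝ := ε / 4 with hη
  have hη0 : 0 < η := by positivity
  obtain ⟨N0, hN0⟩ := hG (hcut δ) (δ / 2) 2 (hcut_HF hδ) (η ^ 2 / 72) (by positivity)
  -- the width
  obtain ⟨H, hH1, hH2, hH3⟩ : ∃ H : ℕ, 0 < H ∧ N0 ≤ 2 * H ∧ 1296 / η ^ 2 ≤ ((2 * H : ℕ) : ℝ) := by
    obtain ⟨n, hn⟩ := exists_nat_ge (1296 / η ^ 2)
    refine ⟨N0 + n + 1, by omega, by omega, hn.trans ?_⟩
    exact_mod_cast (by omega : n ≤ 2 * (N0 + n + 1))
  obtain ⟨J1, hJ1⟩ := hN0 (2 * H) hH2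
  set J0 : ℕ := max J1 1 with hJ0
  obtain ⟨L1, hL1⟩ := exists_nat_ge (36 * (J0 + 6 * H + 2) / ε)
  refine ⟨max J0 L1, fun L hL => ?_⟩
  have hev : ∀ J ∈ Ico J0 L, ∀ᶠ X : ℝ in atTop,
      ‖∑ n ∈ Icc 1 (2 * H), Gm (g (1 * X)) (hcut δ) J (2 * H) n (((J + (2 * H : ℕ)) ^ 2 * 2 + 1) * X) X‖ ≤
        η ^ 2 / 72 * ((2 * H : ℕ) : ℝ) ^ 2 * X := by
    intro J hJ
    rw [mem_Ico] at hJ
    exact hJ1 J ((le_max_left _ _).trans hJ.1) 1 one_pos
  have hev2 := (Filter.eventually_all_finset (Ico J0 L)).2 hev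
  filter_upwards [hev2, eventually_ge_atTop 1] with X hX hX1
  have hX0 : (0 : ℝ) ≤ X := by linarith
  have hL0 : (0 : ℝ) ≤ L := Nat.cast_nonneg _
  set N : ℕ := 2 * H with hN
  have hN1 : 1 ≤ N := by omega
  have hNr : (1 : ℝ) ≤ N := by exact_mod_cast hN1
  have hHr : (0 : ℝ) < H := by exact_mod_cast hH1
  have hNH : (N : ℝ) = 2 * H := by rw [hN]; push_cast; ring
  -- the bound for one starting point
  have hone : ∀ J ∈ Ico J0 L, ∑ A ∈ csA (2 * X), hcut δ (nm A / X) * ‖csT (g X) J N A‖ ≤ η * N * X := by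
    intro J hJ
    have h1 := hX J hJ
    rw [one_mul] at h1
    have hJ' : 1 ≤ J := by
      rw [mem_Ico] at hJ
      exact (le_max_right _ _).trans hJ.1
    have h2 := l1_le (g X) (hg X) δ hδ J N hJ' hN1 X hX1 _ h1
    have h3 : 0 ≤ ∑ A ∈ csA (2 * X), hcut δ (nm A / X) * ‖csT (g X) J N A‖ :=
      sum_nonneg fun A _ => mul_nonneg ((hcut_HF hδ).nn _) (norm_nonneg _)
    apply le_of_sq_le_sq _ (by positivity)
    refine h2.trans ?_
    have h4 : 324 * ((N : ℝ) + 1) ≤ η ^ 2 * N ^ 2 / 2 := by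
      have h5 : 1296 ≤ η ^ 2 * N := by
        rw [div_le_iff₀ (by positivity)] at hH3
        linarith
      have h6 : 1296 * N ≤ η ^ 2 * N * N := mul_le_mul_of_nonneg_right h5 (by linarith)
      nlinarith
    have h7 : 18 * X * (18 * X * ((N : ℝ) + 1) + 2 * (η ^ 2 / 72 * (N : ℝ) ^ 2 * X)) =
        X ^ 2 * (324 * ((N : ℝ) + 1) + η ^ 2 * N ^ 2 / 2) := by ring
    rw [h7]
    have h8 : (η * N * X) ^ 2 = X ^ 2 * (η ^ 2 * N ^ 2 / 2 + η ^ 2 * N ^ 2 / 2) := by ring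
    rw [h8]
    apply mul_le_mul_of_nonneg_left _ (sq_nonneg X)
    linarith
  -- the two parts
  rw [← sum_filter_add_sum_filter_not (RP X) (fun p => (p.1 : ℝ) < δ * X)]
  have hsmall : ∑ p ∈ (RP X).filter (fun p => (p.1 : ℝ) < δ * X), ‖∑ j ∈ range L, g X (er p j)‖ ≤
      9 * (δ * X) * L := by
    have h1 : ∀ p ∈ (RP X).filter (fun p => (p.1 : ℝ) < δ * X), ‖∑ j ∈ range L, g X (er p j)‖ ≤ L := by
      intro p _
      have h2 : ‖∑ j ∈ range L, g X (er p j)‖ ≤ ∑ _j ∈ range L, (1 : ℝ) :=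
        norm_sum_le_of_le _ fun j _ => hg X _
      rw [sum_const, card_range, nsmul_eq_mul, mul_one] at h2
      exact h2
    refine (sum_le_sum h1).trans ?_
    rw [sum_const, nsmul_eq_mul]
    exact mul_le_mul_of_nonneg_right (card_small_le hX0 (by positivity)) hL0
  have hlarge : ∑ p ∈ (RP X).filter (fun p => ¬ (p.1 : ℝ) < δ * X), ‖∑ j ∈ range L, g X (er p j)‖ ≤
      2 * η * L * X + (J0 + 6 * H + 2) * (9 * X) := by
    have h1 : ∀ p ∈ (RP X).filter (fun p => ¬ (p.1 : ℝ) < δ * X), ‖∑ j ∈ range L, g X (er p j)‖ ≤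
        (∑ J ∈ Ico J0 L, hcut δ (nm (AB p).1 / X) * ‖csT (g X) J N (AB p).1‖) / H + (J0 + 6 * H + 2) := by
      intro p hp
      rw [mem_filter, mem_RP hX0] at hp
      obtain ⟨⟨hp0, hpX, hp2, hp3⟩, hpδ⟩ := hp
      push Not at hpδ
      obtain ⟨a1, a2, a3⟩ := AB_spec hp3
      have h2 := fan_le (g X) (hg X) H J0 L hH1 (AB p).1 (AB p).2 a1 (by rw [a2]; positivity)
        (by rw [a2, a3]; exact_mod_cast hp2)
      have h3 : ∑ j ∈ range L, g X (nm (bj (AB p).1 (AB p).2 j)) = ∑ j ∈ range L, g X (er p j) :=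
        sum_congr rfl fun j _ => by rw [nm_bj hp3 hp0]
      rw [h3] at h2
      refine h2.trans (le_of_eq ?_)
      congr 2
      apply sum_congr rfl
      intro J _
      have h4 : hcut δ (nm (AB p).1 / X) = 1 := by
        apply hcut_one hδ
        · rw [a3, le_div_iff₀ (by linarith)]
          exact hpδ
        · rw [a3, div_le_one (by linarith)]
          exact hpX
      rw [h4, one_mul]
    refine (sum_le_sum h1).trans ?_
    rw [sum_add_distrib, ← sum_div, sum_comm, sum_const, nsmul_eq_mul]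
    have h5 : ∀ J ∈ Ico J0 L, ∑ p ∈ (RP X).filter (fun p => ¬ (p.1 : ℝ) < δ * X),
        hcut δ (nm (AB p).1 / X) * ‖csT (g X) J N (AB p).1‖ ≤ η * N * X := by
      intro J hJ
      refine le_trans ?_ (hone J hJ)
      refine sum_RP_le X hX0 _ (filter_subset _ _) (csA (2 * X)) (fun p hp => ?_)
        (fun z => hcut δ (nm z / X) * ‖csT (g X) J N z‖) (fun z => mul_nonneg ((hcut_HF hδ).nn _) (norm_nonneg _))
      have h6 := (mem_filter.1 hp).1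
      have h7 := ((mem_RP hX0).1 h6).2.1
      exact AB_mem hX0 h6 (by linarith)
    have h8 : ∑ J ∈ Ico J0 L, ∑ p ∈ (RP X).filter (fun p => ¬ (p.1 : ℝ) < δ * X),
        hcut δ (nm (AB p).1 / X) * ‖csT (g X) J N (AB p).1‖ ≤ L * (η * N * X) := by
      refine (sum_le_sum h5).trans ?_
      rw [sum_const, nsmul_eq_mul]
      apply mul_le_mul_of_nonneg_right _ (by positivity)
      have h9 : (Ico J0 L).card ≤ L := by
        rw [Nat.card_Ico]
        omega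
      exact_mod_cast h9
    have h10 : (∑ J ∈ Ico J0 L, ∑ p ∈ (RP X).filter (fun p => ¬ (p.1 : ℝ) < δ * X),
        hcut δ (nm (AB p).1 / X) * ‖csT (g X) J N (AB p).1‖) / H ≤ 2 * η * L * X := by
      rw [div_le_iff₀ hHr]
      refine h8.trans (le_of_eq ?_)
      rw [hNH]
      ring
    have h11 : (((RP X).filter (fun p => ¬ (p.1 : ℝ) < δ * X)).card : ℝ) ≤ 9 * X := by
      have h12 : (((RP X).filter (fun p => ¬ (p.1 : ℝ) < δ * X)).card : ℝ) ≤ (RP X).card := by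
        exact_mod_cast card_le_card (filter_subset _ _)
      exact h12.trans (card_RP_le hX0)
    have h13 : (((RP X).filter (fun p => ¬ (p.1 : ℝ) < δ * X)).card : ℝ) * (J0 + 6 * H + 2) ≤
        (9 * X) * (J0 + 6 * H + 2) := mul_le_mul_of_nonneg_right h11 (by positivity)
    linarith
  have hLL : 36 * (J0 + 6 * H + 2) ≤ ε * L := by
    have h1 : (L1 : ℝ) ≤ L := by exact_mod_cast (le_max_right _ _).trans hL
    have h2 := hL1.trans h1
    rw [div_le_iff₀ hε] at h2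
    linarith
  have h20 : (J0 + 6 * H + 2 : ℝ) * (9 * X) ≤ ε / 4 * L * X := by
    have h21 : (J0 + 6 * H + 2 : ℝ) * 9 ≤ ε / 4 * L := by linarith
    calc (J0 + 6 * H + 2 : ℝ) * (9 * X) = (J0 + 6 * H + 2 : ℝ) * 9 * X := by ring
      _ ≤ ε / 4 * L * X := mul_le_mul_of_nonneg_right h21 hX0
  have h22 : 9 * (δ * X) * L = ε / 4 * L * X := by
    rw [hδd]
    ring
  have h23 : 2 * η * L * X = ε / 2 * L * X := by
    rw [hη]
    ring
  calc _ ≤ 9 * (δ * X) * L + (2 * η * L * X + (J0 + 6 * H + 2) * (9 * X)) := add_le_add hsmall hlarge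
    _ ≤ ε / 4 * L * X + (ε / 2 * L * X + ε / 4 * L * X) := by
        rw [h22, h23]
        linarith
    _ = ε * L * X := by ring

end Pool.Agent.OrbL
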