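import Pool.Agent.Lib_MP_f1a94e_m.G32
import Pool.Agent.Lib_MP_f1a94e_ob.A3

/-!
# The law along bounded initial segments of root progressions
-/

set_option autoImplicit false

namespace Pool.Agent.OrbL

open Finset Pool.Agent.GaussMR Pool.Agent.OmAll Pool.Agent.OmEq Pool.Agent.LPr Filter

theorem FanSmall.smul {g : ℝ → ℕ → ℂ} (h : FanSmall g) (c : ℝ) (hc : 0 < c) :
    FanSmall (fun X n => (c : ℂ) * g X n) := by
  intro ε hε
  obtain ⟨L0, hL0⟩ := h (ε / c) (by positivity)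
  refine ⟨L0, fun L hL => ?_⟩
  filter_upwards [hL0 L hL] with X hX
  have h1 : ∀ p ∈ RP X, ‖∑ j ∈ range L, (c : ℂ) * g X (er p j)‖ = c * ‖∑ j ∈ range L, g X (er p j)‖ := by
    intro p _
    rw [← mul_sum, norm_mul, Complex.norm_real, Real.norm_eq_abs, abs_of_pos hc]
  rw [sum_congr rfl h1, ← mul_sum]
  calc c * ∑ p ∈ RP X, ‖∑ j ∈ range L, g X (er p j)‖ ≤ c * (ε / c * L * X) := mul_le_mul_of_nonneg_left hX hc.le
    _ = ε * L * X := by field_simp

theorem FanSmall.congr {g g' : ℝ → ℕ → ℂ} (h : FanSmall g) (hh : ∀ X n, g X n = g' X n) : FanSmall g' := by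
  have h1 : g = g' := funext fun X => funext fun n => hh X n
  rwa [← h1]

/-- the deviation from the mean value -/
theorem fan_dev (R : ℕ) (hR : 0 < R) (w : ℂ) (hw1 : ‖w‖ = 1) (φ : ℝ → ℂ) (hφ : StepF φ) :
    FanSmall (fun X n => fx R w φ X n - mm w φ * fz R 1 n) := by
  by_cases hw2 : w ^ 2 = 1
  · have hw : w = 1 ∨ w = -1 := by
      have h4 : (w - 1) * (w + 1) = 0 := by linear_combination hw2
      rcases mul_eq_zero.1 h4 with h5 | h5
      · exact Or.inl (sub_eq_zero.1 h5)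
      · exact Or.inr (eq_neg_of_add_eq_zero_left h5)
    have h1 := fan_of_gm (fun X n => (fx R w φ X n - mm w φ * fz R w n) / 2)
      (fun X n => norm_comb _ _ _ ((fx_FX R hR w hw1 φ hφ).bd X n) ((fz_FX R hR w hw1).bd X n) (mm_le w φ hφ))
      (gm_pm R hR w hw φ hφ)
    refine (h1.smul 2 two_pos).congr fun X n => ?_
    rcases hw with h | h
    · subst h
      push_cast
      ring
    · have h0 : mm w φ = 0 := by
        unfold mm
        rw [if_neg]
        rw [h]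
        norm_num
      rw [h0]
      push_cast
      ring
  · have h0 : mm w φ = 0 := by
      unfold mm
      rw [if_neg]
      rintro rfl
      exact hw2 (one_pow 2)
    have h2 := fx_FX R hR w hw1 φ hφ
    refine (fan_of_gm (fx R w φ) h2.bd (gmA_X _ h2.bd (gax _ w hw1 hw2 _ h2))).congr fun X n => ?_
    rw [h0, zero_mul, sub_zero]

/-- the coefficients of the expansion of the indicator in one variable -/
noncomputable def cf (q K r a : ℕ) (k : ℕ → ℕ) (i : ℕ) (j : Fin r → ℕ) : ℂ :=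
  ((zq q ^ (i * a))⁻¹ / (q : ℂ)) * ((∏ i : Fin r, (zq K ^ (j i * k i))⁻¹) / (K : ℂ) ^ r)

open Classical in
/-- the condition on one number -/
noncomputable def ind (q R a : ℕ) (u v : ℕ → ℝ) (r : ℕ) (k : ℕ → ℕ) (X : ℝ) (n : ℕ) : ℂ :=
  if n.Coprime R ∧ ArithmeticFunction.cardFactors n ≡ a [MOD q] ∧ (∀ i < r, wc X (u i) (v i) n = k i) then 1 else 0

/-- expansion of the indicator -/
theorem ind_one (q : ℕ) (hq : 0 < q) (R : ℕ) (K : ℕ) (u0 : ℝ) (hu0 : 0 < u0) (hKu : 3 < K * u0) (u v : ℕ → ℝ)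
    (r : ℕ) (hu : ∀ i < r, u0 ≤ u i) (k : ℕ → ℕ) (hk : ∀ i < r, k i < K)
    (a : ℕ) (X : ℝ) (hX : 2 ≤ X) (n : ℕ) (hn : n ≠ 0) (hnX : (n : ℝ) ≤ X ^ 3) :
    ind q R a u v r k X n = ∑ i ∈ range q, ∑ j ∈ Fintype.piFinset (fun _ : Fin r => range K),
      cf q K r a k i j * fx R (zq q ^ i) (phg K u v r j) X n := by
  classical
  have hK : 0 < K := by
    rcases Nat.eq_zero_or_pos K with h | h
    · rw [h, Nat.cast_zero, zero_mul] at hKu
      linarith
    · exact h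
  have hX1 : (1 : ℝ) < X := by linarith
  have hq0 : (q : ℂ) ≠ 0 := by exact_mod_cast hq.ne'
  have hK0 : (K : ℂ) ≠ 0 := by exact_mod_cast hK.ne'
  unfold ind
  by_cases hC : n.Coprime R
  · set A : ℕ → ℂ := fun i => (zq q ^ (i * a))⁻¹ * (zq q ^ i) ^ ArithmeticFunction.cardFactors n with hA
    set C : (Fin r → ℕ) → ℂ := fun j => (∏ i : Fin r, (zq K ^ (j i * k i))⁻¹) *
      ∏ i : Fin r, (zq K ^ (j i)) ^ wc X (u i) (v i) n with hCC
    have h2 : ∑ i ∈ range q, ∑ j ∈ Fintype.piFinset (fun _ : Fin r => range K),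
        cf q K r a k i j * fx R (zq q ^ i) (phg K u v r j) X n =
        (∑ i ∈ range q, A i) * (∑ j ∈ Fintype.piFinset (fun _ : Fin r => range K), C j) / ((q : ℂ) * (K : ℂ) ^ r) := by
      rw [sum_mul_sum, sum_div]
      apply sum_congr rfl
      intro i _
      rw [sum_div]
      apply sum_congr rfl
      intro j _
      unfold fx cf
      rw [if_neg (by tauto), gx_phg K u v r j X hX1]
      simp only [hA, hCC]
      generalize (∏ i : Fin r, (zq K ^ (j i * k i))⁻¹) = c1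
      generalize (∏ i : Fin r, (zq K ^ (j i)) ^ wc X (u i) (v i) n) = c2
      generalize (zq q ^ (i * a))⁻¹ = a1
      generalize (zq q ^ i) ^ ArithmeticFunction.cardFactors n = a2
      ring
    rw [h2]
    simp only [hA, hCC]
    rw [fine_orth hq]
    rw [win_inv K hK r (fun i => k i) (fun i => wc X (u i) (v i) n) (fun i => hk i i.2)
      (fun i => wc_lt K u0 hu0 hKu X hX n hn hnX _ _ (hu i i.2))]
    have e1 : (∀ i < r, wc X (u i) (v i) n = k i) ↔ ∀ i : Fin r, wc X (u i) (v i) n = k i :=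
      ⟨fun h i => h i i.2, fun h i hi => h ⟨i, hi⟩⟩
    by_cases c1 : ArithmeticFunction.cardFactors n ≡ a [MOD q]
    · by_cases c3 : ∀ i : Fin r, wc X (u i) (v i) n = k i
      · rw [if_pos ⟨hC, c1, e1.2 c3⟩, if_pos c1, if_pos c3]
        field_simp
      · rw [if_neg (fun h => c3 (e1.1 h.2.2)), if_neg c3, mul_zero, zero_div]
    · rw [if_neg (fun h => c1 h.2.1), if_neg c1, zero_mul, zero_div]
  · rw [if_neg (fun h => hC h.1)]
    symm
    apply sum_eq_zero
    intro i _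
    apply sum_eq_zero
    intro j _
    unfold fx
    rw [if_pos (Or.inr hC)]
    ring

/-- value of the main term -/
theorem cf_sum (q : ℕ) (hq : 0 < q) (K : ℕ) (u v : ℕ → ℝ) (r a : ℕ) (k : ℕ → ℕ) :
    ∑ i ∈ range q, ∑ j ∈ Fintype.piFinset (fun _ : Fin r => range K), cf q K r a k i j *
        mm (zq q ^ i) (phg K u v r j) = cG K u v r k / (q : ℂ) := by
  rw [sum_eq_single 0]
  · have h1 : ∀ φ : ℝ → ℂ, mm (zq q ^ 0) φ = mu φ := by
      intro φ
      unfold mm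
      rw [if_pos (pow_zero _)]
    simp only [h1]
    unfold cG cf
    simp only [zero_mul, pow_zero, inv_one]
    rw [mul_sum, sum_div]
    refine sum_congr rfl fun j _ => ?_
    ring
  · intro i hi h0
    refine sum_eq_zero fun j _ => ?_
    have h2 : mm (zq q ^ i) (phg K u v r j) = 0 := by
      unfold mm
      rw [if_neg (zq_pow_ne_oneG hq (mem_range.1 hi) h0)]
    rw [h2]
    ring
  · intro h
    exact absurd (mem_range.2 hq) h

theorem cf_norm (q : ℕ) (hq : 0 < q) (K : ℕ) (hK : 0 < K) (r a : ℕ) (k : ℕ → ℕ) (i : ℕ) (j : Fin r → ℕ) :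
    ‖cf q K r a k i j‖ = 1 / (q * (K : ℝ) ^ r) := by
  unfold cf
  rw [norm_mul, norm_div, norm_div, norm_inv, fine_norm q hq, norm_prod, norm_pow, Complex.norm_natCast,
    Complex.norm_natCast]
  have h1 : ∏ i : Fin r, ‖(zq K ^ (j i * k i))⁻¹‖ = 1 := by
    apply prod_eq_one
    intro i _
    rw [norm_inv, fine_norm K hK, inv_one]
  rw [h1, inv_one]
  field_simp

/-- size of the cofactors -/
theorem er_le {x : ℝ} (hx : 1 ≤ x) {p : ℕ × ℕ} (hp : p ∈ RP x) {L j : ℕ} (hj : j < L) (hL : (L : ℝ) ^ 2 + 1 ≤ x) :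
    er p j ≠ 0 ∧ (er p j : ℝ) ≤ x ^ 3 := by
  rw [mem_RP (by linarith)] at hp
  obtain ⟨h1, h2, h3, h4⟩ := hp
  have h5 := er_mul h4 j
  constructor
  · intro h
    rw [h, mul_zero] at h5
    omega
  · have h6 : p.2 + j * p.1 ≤ L * p.1 := by
      have : (j + 1) * p.1 ≤ L * p.1 := Nat.mul_le_mul_right _ hj
      nlinarith
    have h7 : p.1 * er p j ≤ (L * p.1) ^ 2 + 1 := by
      rw [h5]
      have := Nat.pow_le_pow_left h6 2
      omega
    have h8 : (p.1 : ℝ) * er p j ≤ (L * p.1) ^ 2 + 1 := by exact_mod_cast h7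
    have hp1 : (1 : ℝ) ≤ p.1 := by exact_mod_cast h1
    have h9 : (p.1 : ℝ) * er p j ≤ p.1 * (L ^ 2 * p.1 + 1) := by nlinarith
    have h10 : (er p j : ℝ) ≤ L ^ 2 * p.1 + 1 := le_of_mul_le_mul_left h9 (by linarith)
    have h11 : (L : ℝ) ^ 2 * p.1 ≤ (x - 1) * x := by
      apply mul_le_mul (by linarith) h2 (by linarith) (by linarith)
    have h12 : x ^ 2 ≤ x ^ 3 := by
      have : x ^ 3 = x * x ^ 2 := by ring
      nlinarith [sq_nonneg x]
    nlinarith

theorem fz_one (R n : ℕ) (hn : n ≠ 0) [Decidable (n.Coprime R)] : fz R 1 n = if n.Coprime R then 1 else 0 := by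
  unfold fz
  by_cases h : n.Coprime R
  · rw [if_pos h, if_neg (by tauto), one_pow]
  · rw [if_neg h, if_pos (Or.inr h)]

/-- the law on average over the roots -/
theorem fan_law (q : ℕ) (hq : 0 < q) (R : ℕ) (hR : 0 < R) (K : ℕ) (u0 : ℝ) (hu0 : 0 < u0) (hKu : 3 < K * u0)
    (u v : ℕ → ℝ) (r : ℕ) (hu : ∀ i < r, u0 ≤ u i ∧ u i ≤ v i) (k : ℕ → ℕ) (hk : ∀ i < r, k i < K) (c : ℝ)
    (hc : (c : ℂ) = cG K u v r k) (a : ℕ) (ε : ℝ) (hε : 0 < ε) :
    ∃ L0 : ℕ, ∀ L : ℕ, L0 ≤ L → ∀ᶠ X : ℝ in atTop,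
      ∑ p ∈ RP X, ‖∑ j ∈ range L, (ind q R a u v r k X (er p j) - (c : ℂ) / q * fz R 1 (er p j))‖ ≤ ε * L * X := by
  classical
  have hK : 0 < K := by
    rcases Nat.eq_zero_or_pos K with h | h
    · rw [h, Nat.cast_zero, zero_mul] at hKu
      linarith
    · exact h
  set I : Finset (ℕ × (Fin r → ℕ)) := (range q) ×ˢ Fintype.piFinset (fun _ : Fin r => range K) with hI
  have hcard : (I.card : ℝ) = q * (K : ℝ) ^ r := by
    rw [hI, card_product, card_range, Fintype.card_piFinset]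
    simp
  have h1 : ∀ ij : ℕ × (Fin r → ℕ), ∃ L0 : ℕ, ∀ L : ℕ, L0 ≤ L → ∀ᶠ X : ℝ in atTop,
      ∑ p ∈ RP X, ‖∑ j ∈ range L, (fx R (zq q ^ ij.1) (phg K u v r ij.2) X (er p j) -
        mm (zq q ^ ij.1) (phg K u v r ij.2) * fz R 1 (er p j))‖ ≤ ε * L * X := fun ij =>
    fan_dev R hR (zq q ^ ij.1) (fine_norm q hq ij.1) (phg K u v r ij.2)
      (phg_step K hK u v r (fun i hi => ⟨hu0.trans_le (hu i hi).1, (hu i hi).2⟩) ij.2) ε hε
  choose L0 hL0 using h1
  refine ⟨∑ ij ∈ I, L0 ij, fun L hL => ?_⟩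
  have hev : ∀ ij ∈ I, ∀ᶠ X : ℝ in atTop,
      ∑ p ∈ RP X, ‖∑ j ∈ range L, (fx R (zq q ^ ij.1) (phg K u v r ij.2) X (er p j) -
        mm (zq q ^ ij.1) (phg K u v r ij.2) * fz R 1 (er p j))‖ ≤ ε * L * X := by
    intro ij hij
    apply hL0 ij L
    exact (single_le_sum (f := L0) (fun _ _ => Nat.zero_le _) hij).trans hL
  have hev2 := (Filter.eventually_all_finset I).2 hev
  filter_upwards [hev2, eventually_ge_atTop (max 2 ((L : ℝ) ^ 2 + 1))] with X hX hX2
  have hXa : 2 ≤ X := (le_max_left _ _).trans hX2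
  have hXb : (L : ℝ) ^ 2 + 1 ≤ X := (le_max_right _ _).trans hX2
  have h2 : ∀ p ∈ RP X, ‖∑ j ∈ range L, (ind q R a u v r k X (er p j) - (c : ℂ) / q * fz R 1 (er p j))‖ ≤
      ∑ ij ∈ I, (1 / (q * (K : ℝ) ^ r)) * ‖∑ j ∈ range L, (fx R (zq q ^ ij.1) (phg K u v r ij.2) X (er p j) -
        mm (zq q ^ ij.1) (phg K u v r ij.2) * fz R 1 (er p j))‖ := by
    intro p hp
    have h3 : ∑ j ∈ range L, (ind q R a u v r k X (er p j) - (c : ℂ) / q * fz R 1 (er p j)) =
        ∑ ij ∈ I, cf q K r a k ij.1 ij.2 * ∑ j ∈ range L, (fx R (zq q ^ ij.1) (phg K u v r ij.2) X (er p j) -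
        mm (zq q ^ ij.1) (phg K u v r ij.2) * fz R 1 (er p j)) := by
      simp only [mul_sum]
      rw [sum_comm]
      apply sum_congr rfl
      intro j hj
      rw [mem_range] at hj
      obtain ⟨e1, e2⟩ := er_le (by linarith) hp hj hXb
      rw [ind_one q hq R K u0 hu0 hKu u v r (fun i hi => (hu i hi).1) k hk a X hXa (er p j) e1 e2, hc,
        ← cf_sum q hq K u v r a k, hI, sum_product, sum_mul, ← sum_sub_distrib]
      apply sum_congr rfl
      intro i _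
      rw [sum_mul, ← sum_sub_distrib]
      apply sum_congr rfl
      intro j' _
      ring
    rw [h3]
    apply norm_sum_le_of_le
    intro ij _
    rw [norm_mul, cf_norm q hq K hK]
  refine (sum_le_sum h2).trans ?_
  rw [sum_comm]
  have h4 : ∀ ij ∈ I, ∑ p ∈ RP X, (1 / (q * (K : ℝ) ^ r)) * ‖∑ j ∈ range L,
      (fx R (zq q ^ ij.1) (phg K u v r ij.2) X (er p j) -
        mm (zq q ^ ij.1) (phg K u v r ij.2) * fz R 1 (er p j))‖ ≤ (1 / (q * (K : ℝ) ^ r)) * (ε * L * X) := by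
    intro ij hij
    rw [← mul_sum]
    exact mul_le_mul_of_nonneg_left (hX ij hij) (by positivity)
  refine (sum_le_sum h4).trans (le_of_eq ?_)
  rw [sum_const, nsmul_eq_mul, hcard]
  have hq0 : (q : ℝ) ≠ 0 := by exact_mod_cast hq.ne'
  have hK0 : (K : ℝ) ≠ 0 := by exact_mod_cast hK.ne'
  field_simp

end Pool.Agent.OrbL
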