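import Pool.Agent.Lib_MP_f1a94e_ob.A4

/-!
# Almost all root progressions, all subintervals of a bounded window
-/

set_option autoImplicit false

namespace Pool.Agent.OrbL

open Finset Pool.Agent.GaussMR Pool.Agent.OmAll Pool.Agent.OmEq Pool.Agent.LPr Filter

/-- the deviation -/
noncomputable def dv (q R : ℕ) (u v : ℕ → ℝ) (r : ℕ) (k : ℕ → ℕ) (c : ℝ) (a : ℕ) (X : ℝ) (n : ℕ) : ℂ :=
  ind q R a u v r k X n - (c : ℂ) / q * fz R 1 n

theorem cq_bd {q : ℕ} (hq : 0 < q) {c : ℝ} (hc0 : 0 ≤ c) (hc1 : c ≤ 1) : 0 ≤ c / q ∧ c / q ≤ 1 := by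
  have h1 : (1 : ℝ) ≤ q := by exact_mod_cast hq
  exact ⟨div_nonneg hc0 (by linarith), (div_le_one (by linarith)).2 (by linarith)⟩

theorem dv_le (q R : ℕ) (hq : 0 < q) (u v : ℕ → ℝ) (r : ℕ) (k : ℕ → ℕ) (c : ℝ) (hc0 : 0 ≤ c) (hc1 : c ≤ 1) (a : ℕ)
    (X : ℝ) (n : ℕ) : ‖dv q R u v r k c a X n‖ ≤ 1 := by
  classical
  obtain ⟨h0, h1⟩ := cq_bd hq hc0 hc1
  have h2 : (c : ℂ) / q = ((c / q : ℝ) : ℂ) := by push_cast; rfl
  have h3 : fz R 1 n = 0 ∨ fz R 1 n = 1 := by
    unfold fz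
    split_ifs
    · exact Or.inl rfl
    · right
      exact one_pow _
  have h4 : ind q R a u v r k X n = 0 ∨ ind q R a u v r k X n = 1 := by
    unfold ind
    split_ifs
    · exact Or.inr rfl
    · exact Or.inl rfl
  unfold dv
  rw [h2]
  rcases h3 with h3 | h3 <;> rcases h4 with h4 | h4 <;> rw [h3, h4]
  · simp
  · simp
  · rw [zero_sub, norm_neg, mul_one, Complex.norm_real, Real.norm_eq_abs, abs_of_nonneg h0]
    exact h1
  · have h5 : (1 : ℂ) - ((c / q : ℝ) : ℂ) * 1 = ((1 - c / q : ℝ) : ℂ) := by push_cast; ring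
    rw [h5, Complex.norm_real, Real.norm_eq_abs, abs_of_nonneg (by linarith)]
    linarith

open Classical in
/-- PROOF. Markov on a grid of `≤ 4 / ε` initial segments, union over the classes. -/
theorem bad_le (q : ℕ) (hq : 0 < q) (R : ℕ) (hR : 0 < R) (K : ℕ) (u0 : ℝ) (hu0 : 0 < u0) (hKu : 3 < K * u0)
    (u v : ℕ → ℝ) (r : ℕ) (hu : ∀ i < r, u0 ≤ u i ∧ u i ≤ v i) (k : ℕ → ℕ) (hk : ∀ i < r, k i < K) (c : ℝ)
    (hc : (c : ℂ) = cG K u v r k) (hc0 : 0 ≤ c) (hc1 : c ≤ 1) (ε : ℝ) (hε : 0 < ε) :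
    ∃ J0 : ℕ, ∀ J : ℕ, J0 ≤ J → ∀ᶠ X : ℝ in atTop,
      (((RP X).filter (fun p => ¬ ∀ a ∈ range q, ∀ L ≤ J,
        ‖∑ j ∈ range L, dv q R u v r k c a X (er p j)‖ ≤ ε * J)).card : ℝ) ≤ ε * X := by
  obtain ⟨T, hT⟩ := exists_nat_ge (4 / ε)
  have hqr : (1 : ℝ) ≤ q := by exact_mod_cast hq
  have hT0 : (0 : ℝ) < T := lt_of_lt_of_le (by positivity) hT
  set ε' : ℝ := ε ^ 2 / (2 * T * q) with hε'
  have hε'0 : 0 < ε' := by positivity
  have h1 : ∀ a : ℕ, ∃ L0 : ℕ, ∀ L : ℕ, L0 ≤ L → ∀ᶠ X : ℝ in atTop,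
      ∑ p ∈ RP X, ‖∑ j ∈ range L, dv q R u v r k c a X (er p j)‖ ≤ ε' * L * X := fun a =>
    fan_law q hq R hR K u0 hu0 hKu u v r hu k hk c hc a ε' hε'0
  choose L0 hL0 using h1
  set L1 : ℕ := ∑ a ∈ range q, L0 a + 1 with hL1
  obtain ⟨J0, hJ0⟩ := exists_nat_ge (4 * (L1 + 1) / ε)
  refine ⟨J0, fun J hJ => ?_⟩
  have hJr : 4 * ((L1 : ℝ) + 1) ≤ ε * J := by
    have h2 : (J0 : ℝ) ≤ J := by exact_mod_cast hJ
    have h3 := hJ0.trans h2
    rw [div_le_iff₀ hε] at h3
    linarith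
  have hL1r : (1 : ℝ) ≤ L1 := by
    rw [hL1]
    push_cast
    have : (0 : ℝ) ≤ ∑ a ∈ range q, (L0 a : ℝ) := sum_nonneg fun _ _ => Nat.cast_nonneg _
    linarith
  have hJpos : (0 : ℝ) < J := by
    by_contra hcon
    push Not at hcon
    have : ε * J ≤ 0 := mul_nonpos_of_nonneg_of_nonpos hε.le hcon
    linarith
  set M : ℕ := ⌊ε * J / 2⌋₊ with hM
  have hM1 : (M : ℝ) ≤ ε * J / 2 := Nat.floor_le (by positivity)
  have hM2 : ε * J / 4 ≤ M := by
    have h2 : ε * J / 2 < M + 1 := Nat.lt_floor_add_one _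
    linarith
  have hM3 : L1 ≤ M := by
    have h2 : ε * J / 2 < M + 1 := Nat.lt_floor_add_one _
    have h3 : (L1 : ℝ) < M + 1 := by linarith
    have h4 : L1 < M + 1 := by exact_mod_cast h3
    omega
  have hM0 : 0 < M := by omega
  set S : Finset ℕ := (Icc 1 T).filter (fun i => i * M ≤ J) with hS
  have hScard : (S.card : ℝ) ≤ T := by
    have h2 : S.card ≤ (Icc 1 T).card := card_le_card (filter_subset _ _)
    rw [Nat.card_Icc, Nat.add_sub_cancel] at h2
    exact_mod_cast h2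
  have hev : ∀ i ∈ S, ∀ a ∈ range q, ∀ᶠ X : ℝ in atTop,
      ∑ p ∈ RP X, ‖∑ j ∈ range (i * M), dv q R u v r k c a X (er p j)‖ ≤ ε' * ((i * M : ℕ) : ℝ) * X := by
    intro i hi a ha
    apply hL0 a
    rw [hS, mem_filter, mem_Icc] at hi
    have h2 : L0 a ≤ ∑ a ∈ range q, L0 a := single_le_sum (f := L0) (fun _ _ => Nat.zero_le _) ha
    have h3 : 1 * M ≤ i * M := Nat.mul_le_mul_right _ hi.1.1
    omega
  have hev2 : ∀ᶠ X : ℝ in atTop, ∀ i ∈ S, ∀ a ∈ range q,
      ∑ p ∈ RP X, ‖∑ j ∈ range (i * M), dv q R u v r k c a X (er p j)‖ ≤ ε' * ((i * M : ℕ) : ℝ) * X :=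
    (Filter.eventually_all_finset S).2 fun i hi => (Filter.eventually_all_finset (range q)).2 (hev i hi)
  filter_upwards [hev2, eventually_ge_atTop 1] with X hX hX1
  set G : ℕ × ℕ → ℝ := fun p => ∑ i ∈ S, ∑ a ∈ range q, ‖∑ j ∈ range (i * M), dv q R u v r k c a X (er p j)‖ with hG
  have hG0 : ∀ p, 0 ≤ G p := fun p => sum_nonneg fun _ _ => sum_nonneg fun _ _ => norm_nonneg _
  have hGs : ∑ p ∈ RP X, G p ≤ T * q * (ε' * J * X) := by
    rw [hG]
    simp only
    rw [sum_comm]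
    have h2 : ∀ i ∈ S, ∑ p ∈ RP X, ∑ a ∈ range q, ‖∑ j ∈ range (i * M), dv q R u v r k c a X (er p j)‖ ≤
        q * (ε' * J * X) := by
      intro i hi
      rw [sum_comm]
      have h3 : ∀ a ∈ range q, ∑ p ∈ RP X, ‖∑ j ∈ range (i * M), dv q R u v r k c a X (er p j)‖ ≤ ε' * J * X := by
        intro a ha
        refine (hX i hi a ha).trans ?_
        rw [hS, mem_filter] at hi
        have h4 : ((i * M : ℕ) : ℝ) ≤ J := by exact_mod_cast hi.2
        apply mul_le_mul_of_nonneg_right _ (by linarith)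
        exact mul_le_mul_of_nonneg_left h4 hε'0.le
      refine (sum_le_sum h3).trans ?_
      rw [sum_const, card_range, nsmul_eq_mul]
    refine (sum_le_sum h2).trans ?_
    rw [sum_const, nsmul_eq_mul]
    have h5 : 0 ≤ (q : ℝ) * (ε' * J * X) := by
      have : 0 ≤ X := by linarith
      positivity
    calc (S.card : ℝ) * (q * (ε' * J * X)) ≤ T * (q * (ε' * J * X)) := mul_le_mul_of_nonneg_right hScard h5
      _ = _ := by ring
  set B : Finset (ℕ × ℕ) := (RP X).filter (fun p => ¬ ∀ a ∈ range q, ∀ L ≤ J,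
        ‖∑ j ∈ range L, dv q R u v r k c a X (er p j)‖ ≤ ε * J) with hB
  have hbad : ∀ p ∈ B, ε * J / 2 ≤ G p := by
    intro p hp
    rw [hB, mem_filter] at hp
    obtain ⟨_, hp⟩ := hp
    push Not at hp
    obtain ⟨a, ha, L, hL, hlt⟩ := hp
    set i : ℕ := L / M with hi
    have h2 : i * M ≤ L := Nat.div_mul_le_self L M
    have h3 : L < i * M + M := Nat.lt_div_mul_add hM0
    obtain ⟨w, hw⟩ : ∃ w : ℕ, L = i * M + w := ⟨L - i * M, by omega⟩
    have hwM : w < M := by omega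
    have h4 : ∑ j ∈ range L, dv q R u v r k c a X (er p j) =
        ∑ j ∈ range (i * M), dv q R u v r k c a X (er p j) +
          ∑ j ∈ range w, dv q R u v r k c a X (er p (i * M + j)) := by
      rw [hw, sum_range_add]
    have h5 : ‖∑ j ∈ range w, dv q R u v r k c a X (er p (i * M + j))‖ ≤ M := by
      have h6 : ‖∑ j ∈ range w, dv q R u v r k c a X (er p (i * M + j))‖ ≤ ∑ _j ∈ range w, (1 : ℝ) :=
        norm_sum_le_of_le _ fun j _ => dv_le q R hq u v r k c hc0 hc1 a X _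
      rw [sum_const, card_range, nsmul_eq_mul, mul_one] at h6
      have h7 : (w : ℝ) ≤ M := by exact_mod_cast hwM.le
      linarith
    have h8 : ε * J / 2 ≤ ‖∑ j ∈ range (i * M), dv q R u v r k c a X (er p j)‖ := by
      rw [h4] at hlt
      have h9 := norm_add_le (∑ j ∈ range (i * M), dv q R u v r k c a X (er p j))
        (∑ j ∈ range w, dv q R u v r k c a X (er p (i * M + j)))
      linarith
    have hi0 : i ≠ 0 := by
      intro h0
      rw [h0, zero_mul, range_zero, sum_empty, norm_zero] at h8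
      have : 0 < ε * J := by positivity
      linarith
    have hiT : i ≤ T := by
      have h9 : (i : ℝ) * M ≤ J := by exact_mod_cast h2.trans hL
      have h10 : (i : ℝ) * (ε * J / 4) ≤ J := (mul_le_mul_of_nonneg_left hM2 (Nat.cast_nonneg _)).trans h9
      have h11 : (i : ℝ) * ε * J ≤ 4 * J := by linarith
      have h12 : (i : ℝ) * ε ≤ 4 := le_of_mul_le_mul_right h11 hJpos
      have h13 : (i : ℝ) ≤ 4 / ε := (le_div_iff₀ hε).2 h12
      exact_mod_cast h13.trans hT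
    have hiS : i ∈ S := by
      rw [hS, mem_filter, mem_Icc]
      exact ⟨⟨Nat.one_le_iff_ne_zero.2 hi0, hiT⟩, h2.trans hL⟩
    rw [hG]
    simp only
    refine h8.trans ?_
    refine (single_le_sum (f := fun a => ‖∑ j ∈ range (i * M), dv q R u v r k c a X (er p j)‖)
      (fun _ _ => norm_nonneg _) ha).trans ?_
    exact single_le_sum (f := fun i => ∑ a ∈ range q, ‖∑ j ∈ range (i * M), dv q R u v r k c a X (er p j)‖)
      (fun _ _ => sum_nonneg fun _ _ => norm_nonneg _) hiS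
  have hcount : (B.card : ℝ) * (ε * J / 2) ≤ T * q * (ε' * J * X) := by
    have h2 : (B.card : ℝ) * (ε * J / 2) = ∑ _p ∈ B, (ε * J / 2) := by rw [sum_const, nsmul_eq_mul]
    rw [h2]
    refine (sum_le_sum hbad).trans (le_trans ?_ hGs)
    exact sum_le_sum_of_subset_of_nonneg (filter_subset _ _) fun p _ _ => hG0 p
  have h20 : (T : ℝ) * q * (ε' * J * X) = (ε * X) * (ε * J / 2) := by
    rw [hε']
    field_simp
  rw [h20] at hcount
  exact le_of_mul_le_mul_right hcount (by positivity)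

/-- the number of roots from below -/
theorem RP_lower : ∃ κ : ℝ, 0 < κ ∧ ∀ᶠ X : ℝ in atTop, κ * X ≤ (RP X).card := by
  classical
  obtain ⟨κ, hκ, h⟩ := nt_lim 1 one_pos
  have h1 := h 2 4 two_pos (by norm_num)
  have hlog : 0 < Real.log (4 / 2) := Real.log_pos (by norm_num)
  have hpos : 0 < κ * Real.log (4 / 2) := by positivity
  refine ⟨κ * Real.log (4 / 2) / 4, by positivity, ?_⟩
  have h2 : ∀ᶠ x : ℝ in atTop, κ * Real.log (4 / 2) / 2 < (NT 1 2 4 x : ℝ) / x :=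
    h1.eventually_const_lt (by linarith)
  filter_upwards [h2, eventually_ge_atTop 1] with X hX hX1
  have hX0 : 0 < X := by linarith
  rw [lt_div_iff₀ hX0] at hX
  -- comparison of the two sets
  have h3 : NT 1 2 4 X ≤ ((RP X) ×ˢ (range 2)).card := by
    unfold NT
    rw [← Set.ncard_coe_finset]
    refine Set.ncard_le_ncard_of_injOn (fun r : ℕ × ℕ => ((r.1, Nat.sqrt (r.1 * r.2 - 1) % r.1),
      Nat.sqrt (r.1 * r.2 - 1) / r.1)) ?_ ?_ (Finset.finite_toSet _)
    · rintro ⟨d, e⟩ hr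
      obtain ⟨⟨m, hm1, hmX, hm⟩, ⟨hα, hβ⟩, -⟩ := hr
      simp only at hm hα hβ ⊢
      have hs : Nat.sqrt (d * e - 1) = m := by
        rw [hm, Nat.add_sub_cancel]
        exact Nat.sqrt_eq' m
      rw [hs]
      have hα' : 2 * d ≤ e := by exact_mod_cast hα
      have hβ' : e ≤ 4 * d := by exact_mod_cast hβ
      have hd0 : 0 < d := by
        rcases Nat.eq_zero_or_pos d with h0 | h0
        · rw [h0, zero_mul] at hm
          omega
        · exact h0
      have hdm : d ≤ m := by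
        by_contra hcon
        push Not at hcon
        have h4 : d * (2 * d) ≤ d * e := Nat.mul_le_mul_left _ hα'
        have h5 : (m + 1) * (m + 1) ≤ d * d := Nat.mul_le_mul hcon hcon
        nlinarith
      have hm2 : m < 2 * d := by
        by_contra hcon
        push Not at hcon
        have h4 : d * e ≤ d * (4 * d) := Nat.mul_le_mul_left _ hβ'
        have h5 : (2 * d) * (2 * d) ≤ m * m := Nat.mul_le_mul hcon hcon
        nlinarith
      rw [mem_coe, mem_product, mem_RP hX0.le, mem_range]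
      refine ⟨⟨hd0, ?_, Nat.mod_lt _ hd0, ?_⟩, ?_⟩
      · have h4 : (d : ℝ) ≤ m := by exact_mod_cast hdm
        simp only
        linarith
      · simp only
        have h4 : (m % d) ^ 2 + 1 ≡ m ^ 2 + 1 [MOD d] := Nat.ModEq.add_right 1 ((Nat.mod_modEq m d).pow 2)
        have h5 : m ^ 2 + 1 ≡ 0 [MOD d] := by
          rw [← hm]
          exact (Nat.modEq_zero_iff_dvd).2 (dvd_mul_right _ _)
        exact (Nat.modEq_zero_iff_dvd).1 (h4.trans h5)
      · exact Nat.div_lt_of_lt_mul (by linarith)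
    · rintro ⟨d, e⟩ hr ⟨d', e'⟩ hr' heq
      obtain ⟨⟨m, hm1, hmX, hm⟩, -, -⟩ := hr
      obtain ⟨⟨m', hm1', hmX', hm'⟩, -, -⟩ := hr'
      simp only at hm hm'
      have hs : Nat.sqrt (d * e - 1) = m := by
        rw [hm, Nat.add_sub_cancel]
        exact Nat.sqrt_eq' m
      have hs' : Nat.sqrt (d' * e' - 1) = m' := by
        rw [hm', Nat.add_sub_cancel]
        exact Nat.sqrt_eq' m'
      simp only [Prod.mk.injEq, hs, hs'] at heq
      obtain ⟨⟨e1, e2⟩, e3⟩ := heq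
      subst e1
      have h4 : m = m' := by
        rw [← Nat.div_add_mod m d, ← Nat.div_add_mod m' d, e2, e3]
      subst h4
      have hd0 : 0 < d := by
        rcases Nat.eq_zero_or_pos d with h0 | h0
        · rw [h0, zero_mul] at hm
          omega
        · exact h0
      have h5 : e = e' := Nat.eq_of_mul_eq_mul_left hd0 (hm.trans hm'.symm)
      rw [h5]
  rw [card_product, card_range] at h3
  have h4 : (NT 1 2 4 X : ℝ) ≤ (RP X).card * 2 := by exact_mod_cast h3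
  linarith

end Pool.Agent.OrbL
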