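import Pool.Agent.Lib_MP_f1a94e_ob.A5

/-!
# The law for almost all roots, in terms of counting
-/

set_option autoImplicit false

namespace Pool.Agent.OrbL

open Finset Pool.Agent.GaussMR Pool.Agent.OmAll Pool.Agent.OmEq Pool.Agent.LPr Filter

theorem coe_RP {x : ℝ} (hx : 0 ≤ x) :
    (RP x : Set (ℕ × ℕ)) = {p : ℕ × ℕ | 1 ≤ p.1 ∧ (p.1 : ℝ) ≤ x ∧ p.2 < p.1 ∧ p.1 ∣ p.2 ^ 2 + 1} := by
  ext p
  rw [mem_coe, mem_RP hx]
  rfl

/-- the class of `Ω` of the cofactor -/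
theorem cls_shift (q : ℕ) (hq : 0 < q) (a : ℤ) {p : ℕ × ℕ} (hp : 0 < p.1) (h : p.1 ∣ p.2 ^ 2 + 1) :
    ∃ b : ℕ, b < q ∧ ∀ j : ℕ, (ArithmeticFunction.cardFactors (er p j) ≡ b [MOD q] ↔
      (ArithmeticFunction.cardFactors ((p.2 + j * p.1) ^ 2 + 1) : ℤ) ≡ a [ZMOD q]) := by
  obtain ⟨b, -, hb⟩ := exists_nat_cl q hq (a - ArithmeticFunction.cardFactors p.1)
  refine ⟨b % q, Nat.mod_lt _ hq, fun j => ?_⟩
  have h1 : ArithmeticFunction.cardFactors (er p j) ≡ b % q [MOD q] ↔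
      ArithmeticFunction.cardFactors (er p j) ≡ b [MOD q] := by
    constructor
    · intro h2
      exact h2.trans (Nat.mod_modEq b q)
    · intro h2
      exact h2.trans (Nat.mod_modEq b q).symm
  rw [h1, hb]
  have h3 := er_mul h j
  have h4 : er p j ≠ 0 := by
    intro h5
    rw [h5, mul_zero] at h3
    omega
  rw [← h3, ArithmeticFunction.cardFactors_mul hp.ne' h4]
  push_cast
  constructor
  · intro h5
    have h6 := h5.add_left (ArithmeticFunction.cardFactors p.1 : ℤ)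
    rwa [add_sub_cancel] at h6
  · intro h5
    have h6 := h5.sub_right (ArithmeticFunction.cardFactors p.1 : ℤ)
    rwa [add_sub_cancel_left] at h6

/-- counts as sums -/
theorem cnt_eq (q R b : ℕ) (u v : ℕ → ℝ) (r : ℕ) (k : ℕ → ℕ) (c X : ℝ) (e : ℕ → ℕ) (he : ∀ j, e j ≠ 0) (s t : ℕ) :
    ∑ j ∈ Ico s t, dv q R u v r k c b X (e j) =
      (((({j : ℕ | (s ≤ j ∧ j < t) ∧ (e j).Coprime R ∧ ArithmeticFunction.cardFactors (e j) ≡ b [MOD q] ∧
        ∀ i < r, wc X (u i) (v i) (e j) = k i}.ncard : ℝ) -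
        c / q * ({j : ℕ | (s ≤ j ∧ j < t) ∧ (e j).Coprime R}.ncard : ℝ) : ℝ)) : ℂ) := by
  classical
  have h1 : {j : ℕ | (s ≤ j ∧ j < t) ∧ (e j).Coprime R ∧ ArithmeticFunction.cardFactors (e j) ≡ b [MOD q] ∧
      ∀ i < r, wc X (u i) (v i) (e j) = k i} = (((Ico s t).filter (fun j => (e j).Coprime R ∧
        ArithmeticFunction.cardFactors (e j) ≡ b [MOD q] ∧ ∀ i < r, wc X (u i) (v i) (e j) = k i) : Finset ℕ) : Set ℕ) := by
    ext j
    simp only [Set.mem_ofPred_eq, coe_filter, mem_Ico]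
  have h2 : {j : ℕ | (s ≤ j ∧ j < t) ∧ (e j).Coprime R} =
      (((Ico s t).filter (fun j => (e j).Coprime R) : Finset ℕ) : Set ℕ) := by
    ext j
    simp only [Set.mem_ofPred_eq, coe_filter, mem_Ico]
  rw [h1, h2, Set.ncard_coe_finset, Set.ncard_coe_finset, card_filter, card_filter]
  unfold dv ind
  rw [sum_sub_distrib, ← mul_sum]
  push_cast
  have h3 : ∀ j ∈ Ico s t, fz R 1 (e j) = if (e j).Coprime R then 1 else 0 := fun j _ => fz_one R (e j) (he j)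
  rw [sum_congr rfl h3]
  congr 1
  · apply sum_congr rfl
    intro j _
    split_ifs <;> simp
  · congr 1
    apply sum_congr rfl
    intro j _
    split_ifs <;> simp

/-- the law -/
theorem orbit_law (q R : ℕ) (hq : 0 < q) (hR : 0 < R) (u v : ℕ → ℝ) (r : ℕ) (hu : ∀ i < r, 0 < u i ∧ u i ≤ v i)
    (k : ℕ → ℕ) : ∃ c : ℝ,
    Tendsto (fun x : ℝ => (Set.ncard {n : ℕ | 1 ≤ n ∧ (n : ℝ) ≤ x ∧ ∀ i < r, wc x (u i) (v i) n = k i} : ℝ) / x)
      atTop (nhds c) ∧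
    ∀ ε : ℝ, 0 < ε → ∃ J0 : ℕ, ∀ J : ℕ, J0 ≤ J → ∀ᶠ x : ℝ in atTop,
      (Set.ncard {p : ℕ × ℕ | p ∈ RP x ∧ ¬ ∀ (a : ℤ) (s t : ℕ), s ≤ t → t ≤ J →
        |(({j : ℕ | (s ≤ j ∧ j < t) ∧ (er p j).Coprime R ∧
            (ArithmeticFunction.cardFactors ((p.2 + j * p.1) ^ 2 + 1) : ℤ) ≡ a [ZMOD q] ∧
            ∀ i < r, wc x (u i) (v i) (er p j) = k i}.ncard : ℝ) -
          c / q * ({j : ℕ | (s ≤ j ∧ j < t) ∧ (er p j).Coprime R}.ncard : ℝ))| ≤ ε * J} : ℝ) ≤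
        ε * (RP x).card := by
  classical
  obtain ⟨u0, hu0, hu0'⟩ := exists_u0 u r (fun i hi => (hu i hi).1)
  have hur : ∀ i < r, u0 ≤ u i ∧ u i ≤ v i := fun i hi => ⟨hu0' i hi, (hu i hi).2⟩
  obtain ⟨K, hK, hk⟩ : ∃ K : ℕ, 3 < K * u0 ∧ (∀ i < r, k i < K) := by
    refine ⟨⌊3 / u0⌋₊ + ∑ i ∈ range r, k i + 1, ?_, ?_⟩
    · have h1 : 3 / u0 < ⌊3 / u0⌋₊ + 1 := Nat.lt_floor_add_one _
      have h3 : 3 / u0 < ((⌊3 / u0⌋₊ + ∑ i ∈ range r, k i + 1 : ℕ) : ℝ) := by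
        refine h1.trans_le ?_
        push_cast
        have : (0 : ℝ) ≤ ∑ i ∈ range r, (k i : ℝ) := sum_nonneg fun _ _ => Nat.cast_nonneg _
        linarith
      rwa [div_lt_iff₀ hu0] at h3
    · intro i hi
      have := single_le_sum (f := fun i => k i) (fun _ _ => Nat.zero_le _) (mem_range.2 hi)
      omega
  obtain ⟨c, hc, hlim⟩ := int_lawG K u0 hu0 u v r hur hK k hk
  refine ⟨c, hlim, ?_⟩
  -- `0 ≤ c ≤ 1`
  have hc0 : 0 ≤ c := by
    refine ge_of_tendsto hlim ?_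
    filter_upwards [eventually_gt_atTop 0] with x hx
    positivity
  have hc1 : c ≤ 1 := by
    refine le_of_tendsto hlim ?_
    filter_upwards [eventually_gt_atTop 0] with x hx
    rw [div_le_one hx]
    have h1 : {n : ℕ | 1 ≤ n ∧ (n : ℝ) ≤ x ∧ ∀ i < r, wc x (u i) (v i) n = k i} ⊆ ((Icc 1 ⌊x⌋₊ : Finset ℕ) : Set ℕ) := by
      rintro n ⟨h2, h3, _⟩
      rw [mem_coe, mem_Icc]
      exact ⟨h2, (Nat.le_floor_iff hx.le).2 h3⟩
    have h2 := Set.ncard_le_ncard h1 (Finset.finite_toSet _)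
    rw [Set.ncard_coe_finset, Nat.card_Icc, Nat.add_sub_cancel] at h2
    have h3 : (Set.ncard {n : ℕ | 1 ≤ n ∧ (n : ℝ) ≤ x ∧ ∀ i < r, wc x (u i) (v i) n = k i} : ℝ) ≤ ⌊x⌋₊ := by
      exact_mod_cast h2
    exact h3.trans (Nat.floor_le hx.le)
  intro ε hε
  obtain ⟨κ, hκ, hRP⟩ := RP_lower
  set δ : ℝ := min (ε / 2) (ε * κ) with hδd
  have hδ : 0 < δ := lt_min (by positivity) (by positivity)
  obtain ⟨J0, hJ0⟩ := bad_le q hq R hR K u0 hu0 hK u v r hur k hk c hc hc0 hc1 δ hδ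
  refine ⟨J0, fun J hJ => ?_⟩
  filter_upwards [hJ0 J hJ, hRP, eventually_ge_atTop 1] with x hx hx2 hx1
  have hx0 : (0 : ℝ) ≤ x := by linarith
  set B : Finset (ℕ × ℕ) := (RP x).filter (fun p => ¬ ∀ a ∈ range q, ∀ L ≤ J,
        ‖∑ j ∈ range L, dv q R u v r k c a x (er p j)‖ ≤ δ * J) with hB
  have hsub : {p : ℕ × ℕ | p ∈ RP x ∧ ¬ ∀ (a : ℤ) (s t : ℕ), s ≤ t → t ≤ J →
        |(({j : ℕ | (s ≤ j ∧ j < t) ∧ (er p j).Coprime R ∧
            (ArithmeticFunction.cardFactors ((p.2 + j * p.1) ^ 2 + 1) : ℤ) ≡ a [ZMOD q] ∧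
            ∀ i < r, wc x (u i) (v i) (er p j) = k i}.ncard : ℝ) -
          c / q * ({j : ℕ | (s ≤ j ∧ j < t) ∧ (er p j).Coprime R}.ncard : ℝ))| ≤ ε * J} ⊆ (B : Set (ℕ × ℕ)) := by
    rintro p ⟨hp, hnot⟩
    rw [mem_coe, hB, mem_filter]
    refine ⟨hp, fun hall => hnot ?_⟩
    intro a s t hst htJ
    have hp' := (mem_RP hx0).1 hp
    obtain ⟨b, hbq, hb⟩ := cls_shift q hq a hp'.1 hp'.2.2.2
    have he : ∀ j, er p j ≠ 0 := by
      intro j h5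
      have h3 := er_mul hp'.2.2.2 j
      rw [h5, mul_zero] at h3
      omega
    have h1 := cnt_eq q R b u v r k c x (er p) he s t
    simp only [hb] at h1
    rw [← Real.norm_eq_abs, ← Complex.norm_real, ← h1]
    have h2 : ∑ j ∈ Ico s t, dv q R u v r k c b x (er p j) =
        ∑ j ∈ range t, dv q R u v r k c b x (er p j) - ∑ j ∈ range s, dv q R u v r k c b x (er p j) :=
      sum_Ico_eq_sub _ hst
    rw [h2]
    have h3 := hall b (mem_range.2 hbq) t htJ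
    have h4 := hall b (mem_range.2 hbq) s (hst.trans htJ)
    refine (norm_sub_le _ _).trans ?_
    have h5 : δ * J ≤ ε / 2 * J := mul_le_mul_of_nonneg_right (min_le_left _ _) (Nat.cast_nonneg _)
    linarith
  have h1 := Set.ncard_le_ncard hsub (Finset.finite_toSet _)
  rw [Set.ncard_coe_finset] at h1
  have h2 : (B.card : ℝ) ≤ ε * (RP x).card := by
    refine hx.trans ?_
    calc δ * x ≤ ε * κ * x := mul_le_mul_of_nonneg_right (min_le_right _ _) hx0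
      _ = ε * (κ * x) := by ring
      _ ≤ ε * (RP x).card := mul_le_mul_of_nonneg_left hx2 hε.le
  refine le_trans ?_ h2
  exact_mod_cast h1

end Pool.Agent.OrbL
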