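import Pool.Agent.Lib_MP_f1a94e_mr.Main

/-!
# MP_f1a94e_nt: the parity of the number of prime factors of `m ^ 2 + 1`

For every real `A > log 2 = 0.693…` and all large `N` there are at least `√N / (log N) ^ A` values
`m ^ 2 + 1 ≤ N` with `m` even and an odd number of prime factors (counted with multiplicity), and at least
as many with an even number of prime factors; the first part of Q1 asks for `C √N / log N` primes of this
form. The same holds for every completely multiplicative `g : ℕ → {1, -1}` instead of the Liouville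
function.
-/

namespace Pool.Agent.Results.MP_f1a94e_nt.ParityLogTwo

open Filter

theorem result :
    (∀ A : ℝ, Real.log 2 < A → ∀ᶠ N : ℕ in atTop,
      Real.sqrt N / Real.log N ^ A ≤
        Set.ncard {k : ℕ | k ≤ N ∧ (∃ m : ℕ, Even m ∧ k = m ^ 2 + 1) ∧
          Odd (ArithmeticFunction.cardFactors k)} ∧
      Real.sqrt N / Real.log N ^ A ≤
        Set.ncard {k : ℕ | k ≤ N ∧ (∃ m : ℕ, Even m ∧ k = m ^ 2 + 1) ∧
          Even (ArithmeticFunction.cardFactors k)}) ∧
    (∀ g : ℕ → ℤ, (∀ n, 0 < n → g n = 1 ∨ g n = -1) →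
      (∀ m n, 0 < m → 0 < n → g (m * n) = g m * g n) → ∀ A : ℝ, Real.log 2 < A →
      ((∃ m : ℕ, Even m ∧ g (m ^ 2 + 1) = -1) → ∀ᶠ x : ℕ in atTop,
        (x : ℝ) / Real.log x ^ A ≤
          Set.ncard {m : ℕ | m ≤ x ∧ Even m ∧ g (m ^ 2 + 1) = -1}) ∧
      (∀ᶠ x : ℕ in atTop,
        (x : ℝ) / Real.log x ^ A ≤
          Set.ncard {m : ℕ | m ≤ x ∧ Even m ∧ g (m ^ 2 + 1) = 1})) := by
  constructor
  · intro A hA
    have hg1 : ∀ n : ℕ, 0 < n → (-1 : ℤ) ^ (ArithmeticFunction.cardFactors n) = 1 ∨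
        (-1 : ℤ) ^ (ArithmeticFunction.cardFactors n) = -1 := fun n _ => neg_one_pow_eq_or ℤ _
    have hg2 : ∀ m n : ℕ, 0 < m → 0 < n → (-1 : ℤ) ^ (ArithmeticFunction.cardFactors (m * n)) =
        (-1 : ℤ) ^ (ArithmeticFunction.cardFactors m) *
          (-1 : ℤ) ^ (ArithmeticFunction.cardFactors n) := by
      intro m n hm hn
      rw [ArithmeticFunction.cardFactors_mul hm.ne' hn.ne', pow_add]
    have hodd : ∀ k : ℕ, (-1 : ℤ) ^ (ArithmeticFunction.cardFactors k) = -1 ↔
        Odd (ArithmeticFunction.cardFactors k) := fun k => neg_one_pow_eq_neg_one_iff_odd (by norm_num)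
    have heven : ∀ k : ℕ, (-1 : ℤ) ^ (ArithmeticFunction.cardFactors k) = 1 ↔
        Even (ArithmeticFunction.cardFactors k) := fun k => neg_one_pow_eq_one_iff_even (by norm_num)
    obtain ⟨h1, h2⟩ := Pool.Agent.GaussMR.general_real
      (fun n => (-1 : ℤ) ^ (ArithmeticFunction.cardFactors n)) hg1 hg2 A hA
    have h5 : ∃ m : ℕ, Even m ∧ (-1 : ℤ) ^ (ArithmeticFunction.cardFactors (m ^ 2 + 1)) = -1 := by
      refine ⟨2, even_two, ?_⟩
      rw [hodd, show 2 ^ 2 + 1 = 5 by norm_num, ArithmeticFunction.cardFactors_apply_prime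
        (by norm_num : Nat.Prime 5)]
      exact odd_one
    have h3 := Pool.Agent.GaussMR.general_values
      (fun k => (-1 : ℤ) ^ (ArithmeticFunction.cardFactors k) = -1) A hA (h1 h5)
    have h4 := Pool.Agent.GaussMR.general_values
      (fun k => (-1 : ℤ) ^ (ArithmeticFunction.cardFactors k) = 1) A hA h2
    simp only [hodd] at h3
    simp only [heven] at h4
    exact h3.and h4
  · intro g hg1 hg2 A hA
    obtain ⟨h1, h2⟩ := Pool.Agent.GaussMR.general_real g hg1 hg2 A hA
    exact ⟨fun h => Pool.Agent.GaussMR.general_nat (fun k => g k = -1) A (h1 h),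
      Pool.Agent.GaussMR.general_nat (fun k => g k = 1) A h2⟩

end Pool.Agent.Results.MP_f1a94e_nt.ParityLogTwo
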