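import Pool.Agent.Lib_MP_f1a94e_ob.A6

/-!
# MP_f1a94e_nt: the law of `m ^ 2 + 1` in bounded windows of almost every root progression

For almost every root `ν` of `ν ^ 2 = -1` modulo `d`, `d ≤ x`, the numbers `m ^ 2 + 1` and `(m ^ 2 + 1) / d` with
`m = ν, ν + d, …, ν + (J - 1) d` (boundedly many) follow the law of random integers: `Ω(m ^ 2 + 1)` is equidistributed
modulo `q`, and independent of the large prime factors of `(m ^ 2 + 1) / d`.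
-/

set_option autoImplicit false

namespace Pool.Agent.Results.MP_f1a94e_nt.RootProgressions

open Filter

open Classical in
/-- the number of prime factors of `n`, counted with multiplicity, in the window `(x^u, x^v]` -/
noncomputable def win (x u v : ℝ) (n : ℕ) : ℕ :=
  (n.primeFactorsList.filter (fun p : ℕ => x ^ u < (p : ℝ) ∧ (p : ℝ) ≤ x ^ v)).length

/-- the roots `(d, ν)`: `1 ≤ d ≤ x`, `0 ≤ ν < d`, `d ∣ ν ^ 2 + 1` -/
def roots (x : ℝ) : Set (ℕ × ℕ) := {p | 1 ≤ p.1 ∧ (p.1 : ℝ) ≤ x ∧ p.2 < p.1 ∧ p.1 ∣ p.2 ^ 2 + 1}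

/-- the cofactor `(m ^ 2 + 1) / d` of the member `m = ν + j d` of the root progression of `(d, ν)` -/
def cof (p : ℕ × ℕ) (j : ℕ) : ℕ := ((p.2 + j * p.1) ^ 2 + 1) / p.1

/-- extension of a function on `Fin r` -/
noncomputable def ext {α : Type*} {r : ℕ} (u : Fin r → α) (c : α) (i : ℕ) : α := if h : i < r then u ⟨i, h⟩ else c

theorem ext_lt {α : Type*} {r : ℕ} (u : Fin r → α) (c : α) (i : Fin r) : ext u c i = u i := by
  unfold ext
  rw [dif_pos i.2]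

theorem ext_iff {r : ℕ} (u v : Fin r → ℝ) (k : Fin r → ℕ) (x : ℝ) (n : ℕ) :
    (∀ i < r, Pool.Agent.LPr.wc x (ext u 1 i) (ext v 1 i) n = ext k 0 i) ↔ ∀ i, win x (u i) (v i) n = k i := by
  constructor
  · intro h i
    have h1 := h i i.2
    rw [ext_lt, ext_lt, ext_lt] at h1
    exact h1
  · intro h i hi
    have h1 := h ⟨i, hi⟩
    have e1 := ext_lt u 1 ⟨i, hi⟩
    have e2 := ext_lt v 1 ⟨i, hi⟩
    have e3 := ext_lt k 0 ⟨i, hi⟩
    simp only at e1 e2 e3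
    rw [e1, e2, e3]
    exact h1

theorem result :
    ∀ (q R : ℕ), 0 < q → 0 < R → ∀ (r : ℕ) (u v : Fin r → ℝ) (k : Fin r → ℕ), (∀ i, 0 < u i ∧ u i ≤ v i) →
    ∃ c : ℝ,
      Tendsto (fun x : ℝ => (Set.ncard {n : ℕ | 1 ≤ n ∧ (n : ℝ) ≤ x ∧ ∀ i, win x (u i) (v i) n = k i} : ℝ) / x)
        atTop (nhds c) ∧
      ∀ ε : ℝ, 0 < ε → ∃ J₀ : ℕ, ∀ J : ℕ, J₀ ≤ J → ∀ᶠ x : ℝ in atTop,
        (Set.ncard {p : ℕ × ℕ | p ∈ roots x ∧ ¬ ∀ (a : ℤ) (s t : ℕ), s ≤ t → t ≤ J →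
          |(Set.ncard {j : ℕ | (s ≤ j ∧ j < t) ∧ (cof p j).Coprime R ∧
              (ArithmeticFunction.cardFactors ((p.2 + j * p.1) ^ 2 + 1) : ℤ) ≡ a [ZMOD q] ∧
              ∀ i, win x (u i) (v i) (cof p j) = k i} : ℝ) -
            c / q * (Set.ncard {j : ℕ | (s ≤ j ∧ j < t) ∧ (cof p j).Coprime R} : ℝ)| ≤ ε * J} : ℝ) ≤
          ε * (Set.ncard (roots x) : ℝ) := by
  intro q R hq hR r u v k huv
  obtain ⟨c, h1, h2⟩ := Pool.Agent.OrbL.orbit_law q R hq hR (ext u 1) (ext v 1) r (fun i hi => by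
    have e1 := ext_lt u 1 ⟨i, hi⟩
    have e2 := ext_lt v 1 ⟨i, hi⟩
    simp only at e1 e2
    rw [e1, e2]
    exact huv ⟨i, hi⟩) (ext k 0)
  simp only [ext_iff] at h1 h2
  refine ⟨c, h1, fun ε hε => ?_⟩
  obtain ⟨J0, hJ0⟩ := h2 ε hε
  refine ⟨J0, fun J hJ => ?_⟩
  filter_upwards [hJ0 J hJ, eventually_ge_atTop 0] with x hx hx0
  have h3 : (Set.ncard (roots x) : ℝ) = (Pool.Agent.OrbL.RP x).card := by
    rw [← Set.ncard_coe_finset, Pool.Agent.OrbL.coe_RP hx0]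
    rfl
  have h4 : ∀ p : ℕ × ℕ, p ∈ roots x ↔ p ∈ Pool.Agent.OrbL.RP x := by
    intro p
    rw [← Finset.mem_coe, Pool.Agent.OrbL.coe_RP hx0]
    rfl
  simp only [h4, h3]
  exact hx

end Pool.Agent.Results.MP_f1a94e_nt.RootProgressions
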